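import Mathlib


/-! # V1.Abs : symmetric multilinear maps which vanish on repeated arguments (pure algebra) -/

namespace H25.V1

theorem absm {m : ℕ} {A G : Type} [AddCommGroup A] [AddCommGroup G] (M : MultilinearMap ℤ (fun _ : Fin m => A) G)
    (hG : ∀ (N : ℕ) (g : G), 0 < N → N • g = 0 → g = 0) (T : AddSubgroup A) (hT : ∀ z : Fin m → A, (∃ i, z i ∈ T) → M z = 0)
    (S : Set A) (hsym : ∀ z : Fin m → A, (∀ l, z l ∈ S) → ∀ i j : Fin m, i ≠ j → M (fun l => z (Equiv.swap i j l)) = M z)
    (hsq : ∀ z : Fin m → A, (∀ l, z l ∈ S) → ∀ i j : Fin m, i ≠ j → z i = z j → M z = 0)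
    (x : Fin m → A) (hx : ∀ l, x l ∈ S) (I : Finset (Fin m)) {g : ℕ} (hg : g < I.card) (y : Fin g → A) (hy : ∀ l, y l ∈ S)
    (h : (∑ i ∈ I, x i) + ∑ l, y l ∈ T) : M x = 0 := by
  classical
  -- permutations
  have hperm : ∀ σ : Equiv.Perm (Fin m), ∀ z : Fin m → A, (∀ l, z l ∈ S) → M (fun l => z (σ l)) = M z := by
    intro σ
    induction σ using Equiv.Perm.swap_induction_on with
    | one => intro z _; rfl
    | swap_mul f i j hij ih =>
      intro z hz
      have h1 := ih (fun l => z (Equiv.swap i j l)) (fun l => hz _)
      have h2 := hsym z hz i j hij
      rw [← h2, ← h1]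
      rfl
  -- part A
  have hA : ∃ N : ℕ, 0 < N ∧ M (fun l => if l ∈ I then ∑ i ∈ I, x i else x l) = N • M x := by
    have e1 : (fun l => if l ∈ I then ∑ i ∈ I, x i else x l) =
        fun l => ∑ j ∈ (if l ∈ I then I else {l} : Finset (Fin m)), x j := by
      funext l
      split_ifs <;> simp
    have e2 := MultilinearMap.map_sum_finset M (α := fun _ => Fin m) (fun _ j => x j)
      (fun l => (if l ∈ I then I else {l} : Finset (Fin m)))
    rw [e1, e2]
    refine ⟨((Fintype.piFinset (fun l => (if l ∈ I then I else {l} : Finset (Fin m)))).filter
      (fun r => Function.Injective r)).card, ?_, ?_⟩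
    · rw [Finset.card_pos]
      refine ⟨fun l => l, ?_⟩
      rw [Finset.mem_filter]
      refine ⟨?_, fun a b hab => hab⟩
      rw [Fintype.mem_piFinset]
      intro l
      split_ifs with hl
      · exact hl
      · simp
    · rw [← Finset.sum_filter_add_sum_filter_not (Fintype.piFinset (fun l => (if l ∈ I then I else {l} : Finset (Fin m))))
        (fun r => Function.Injective r)]
      have z1 : ∑ r ∈ (Fintype.piFinset (fun l => (if l ∈ I then I else {l} : Finset (Fin m)))).filter
          (fun r => ¬ Function.Injective r), M (fun i => x (r i)) = 0 := by
        apply Finset.sum_eq_zero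
        intro r hr
        rw [Finset.mem_filter] at hr
        have hni := hr.2
        unfold Function.Injective at hni
        push Not at hni
        obtain ⟨a, b, hab, hne⟩ := hni
        exact hsq (fun i => x (r i)) (fun l => hx _) a b hne (by rw [hab])
      have z2 : ∑ r ∈ (Fintype.piFinset (fun l => (if l ∈ I then I else {l} : Finset (Fin m)))).filter
          (fun r => Function.Injective r), M (fun i => x (r i)) =
          ∑ r ∈ (Fintype.piFinset (fun l => (if l ∈ I then I else {l} : Finset (Fin m)))).filter
          (fun r => Function.Injective r), M x := by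
        apply Finset.sum_congr rfl
        intro r hr
        rw [Finset.mem_filter] at hr
        have hb : Function.Bijective r := Finite.injective_iff_bijective.mp hr.2
        have := hperm (Equiv.ofBijective r hb) x hx
        simpa using this
      rw [z1, z2, Finset.sum_const, add_zero]
  -- part B
  have hB1 : ∀ J : Finset (Fin m), J ⊆ I →
      M (fun l => if l ∈ J then - ∑ k, y k else if l ∈ I then ∑ i ∈ I, x i else x l) =
      M (fun l => if l ∈ I then ∑ i ∈ I, x i else x l) := by
    intro J
    induction J using Finset.induction_on with
    | empty => intro _; simp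
    | insert a J haJ ih =>
      intro hJ
      have haI : a ∈ I := hJ (Finset.mem_insert_self a J)
      have hJI : J ⊆ I := fun t ht => hJ (Finset.mem_insert_of_mem ht)
      rw [← ih hJI]
      set z : Fin m → A := fun l => if l ∈ J then - ∑ k, y k else if l ∈ I then ∑ i ∈ I, x i else x l with hz
      have e1 : (fun l => if l ∈ insert a J then - ∑ k, y k else if l ∈ I then ∑ i ∈ I, x i else x l) =
          Function.update z a (- ∑ k, y k) := by
        funext l
        by_cases hl : l = a
        · subst hl; simp
        · rw [Function.update_of_ne hl]
          simp [hz, Finset.mem_insert, hl]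
      have e2 : z = Function.update z a (((∑ i ∈ I, x i) + ∑ l, y l) + (- ∑ k, y k)) := by
        funext l
        by_cases hl : l = a
        · subst hl
          rw [Function.update_self]
          simp [hz, haJ, haI]
        · rw [Function.update_of_ne hl]
      rw [e1]
      conv_rhs => rw [e2]
      rw [M.map_update_add]
      have : M (Function.update z a ((∑ i ∈ I, x i) + ∑ l, y l)) = 0 := by
        apply hT
        exact ⟨a, by rw [Function.update_self]; exact h⟩
      rw [this, zero_add]
  have hB2 : M (fun l => if l ∈ I then - ∑ k, y k else x l) = 0 := by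
    have e1 : (fun l => if l ∈ I then - ∑ k, y k else x l) =
        fun l => ∑ j ∈ (if l ∈ I then Finset.univ.image some else {none} : Finset (Option (Fin g))),
          ((match j with | some _ => (-1 : ℤ) | none => 1) • (match j with | some k => y k | none => x l)) := by
      funext l
      split_ifs with hl
      · rw [Finset.sum_image (by intro a _ b _ hab; exact Option.some.inj hab)]
        simp
      · simp
    rw [e1]
    have e2 := MultilinearMap.map_sum_finset M (α := fun _ => Option (Fin g))
      (fun l j => ((match j with | some _ => (-1 : ℤ) | none => 1) • (match j with | some k => y k | none => x l)))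
      (fun l => (if l ∈ I then Finset.univ.image some else {none} : Finset (Option (Fin g))))
    rw [e2]
    apply Finset.sum_eq_zero
    intro r hr
    rw [Fintype.mem_piFinset] at hr
    have e3 := M.map_smul_univ (fun i => (match r i with | some _ => (-1 : ℤ) | none => 1))
      (fun i => (match r i with | some k => y k | none => x i))
    rw [e3]
    -- pigeonhole
    have hI : ∀ i ∈ I, ∃ k, r i = some k := by
      intro i hi
      have := hr i
      rw [if_pos hi] at this
      obtain ⟨k, _, hk⟩ := Finset.mem_image.mp this
      exact ⟨k, hk.symm⟩
    obtain ⟨a, ha, b, hb, hab, hrab⟩ := Finset.exists_ne_map_eq_of_card_lt_of_maps_to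
      (s := I) (t := (Finset.univ : Finset (Fin g)).image some)
      (by rw [Finset.card_image_of_injective _ (Option.some_injective _)]; simpa using hg) (f := r)
      (fun i hi => by
        obtain ⟨k, hk⟩ := hI i hi
        rw [hk]
        exact Finset.mem_image_of_mem _ (Finset.mem_univ _))
    have : M (fun i => (match r i with | some k => y k | none => x i)) = 0 := by
      apply hsq _ _ a b hab
      · show (match r a with | some k => y k | none => x a) = (match r b with | some k => y k | none => x b)
        obtain ⟨k, hk⟩ := hI a ha
        have hk' : r b = some k := by rw [← hrab]; exact hk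
        rw [hk, hk']
      · intro l
        show (match r l with | some k => y k | none => x l) ∈ S
        cases hrl : r l with
        | none => exact hx l
        | some k => exact hy k
    rw [this, smul_zero]
  obtain ⟨N, hN, hNM⟩ := hA
  apply hG N (M x) hN
  rw [← hNM, ← hB1 I (Finset.Subset.refl I)]
  have e : (fun l => if l ∈ I then - ∑ k, y k else if l ∈ I then ∑ i ∈ I, x i else x l) =
      fun l => if l ∈ I then - ∑ k, y k else x l := by
    funext l
    split_ifs <;> rfl
  rw [e]
  exact hB2

end H25.V1
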