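import Pool.Agent.H25.V1.Tr


/-! # V1.Bas : a free order (about 200 lines)

`f = u` is transcendental over `K`; `R = K[X]` acts on `Om K` through `aeval u` (use a type synonym of `Om K` depending on `u`, with the algebra instance given by
`(aeval u).toRingHom.toAlgebra`, NOT the instance of `Om K`).  Every `x_i` is algebraic over `R` (`alg`), so `d_i x_i` is integral over `R` for some `d_i ≠ 0`
(`exists_integral_multiple`).  Let `B` be the `R`-subalgebra generated by the `d_i x_i`: a finitely generated `R`-module (`Algebra.finite_adjoin_..`/`IsIntegral.fg_adjoin..`: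
`fg_adjoin_of_finite`), torsion free because `Om K` is a field and `aeval u` is injective, so free (`R` is a PID: `Module.free_of_finite_type_torsion_free'`), of rank `n > 0`.  `w` = a basis.
(i) elements of `B` are integral over `R`; if `u ∈ π.V` then the coefficients `aeval u (p.coeff i)` are in `π.V` and `mem_of_root` (`H25.KP.Val`) applies. -/

namespace H25.V1

open H68.BB H25.KP Polynomial

variable {K : Type} [Field K]

private theorem bas_gen {R F : Type} [CommRing R] [IsDomain R] [IsPrincipalIdealRing R] [Field F] [Algebra R F]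
    (hinj : Function.Injective (algebraMap R F)) {l : ℕ} (x : Fin l → F) (halg : ∀ i, IsAlgebraic R (x i)) :
    ∃ (n : ℕ) (w : Fin n → F), 0 < n ∧ (∀ k : Fin n, IsIntegral R (w k)) ∧
      (∀ c : Fin n → R, ∑ k, algebraMap R F (c k) * w k = 0 → ∀ k, c k = 0) ∧
      (∀ i j, ∃ c : Fin n → R, w i * w j = ∑ k, algebraMap R F (c k) * w k) ∧
      (∃ c : Fin n → R, 1 = ∑ k, algebraMap R F (c k) * w k) ∧
      (∀ i, ∃ d : R, d ≠ 0 ∧ ∃ c : Fin n → R, algebraMap R F d * x i = ∑ k, algebraMap R F (c k) * w k) := by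
  classical
  choose d hd hint using fun i => (halg i).exists_integral_multiple
  let S : Set F := Set.range fun i => d i • x i
  have hfg : (Algebra.adjoin R S).toSubmodule.FG :=
    fg_adjoin_of_finite (Set.finite_range _) (by
      rintro _ ⟨i, rfl⟩
      exact hint i)
  let B : Subalgebra R F := Algebra.adjoin R S
  have hfin : Module.Finite R B := Module.Finite.iff_fg.mpr hfg
  have : FaithfulSMul R F := (faithfulSMul_iff_algebraMap_injective R F).mpr hinj
  have : Module.IsTorsionFree R B := inferInstance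
  have : Module.Free R B := Module.free_of_finite_type_torsion_free'
  let b := Module.finBasis R B
  have hexp : ∀ z : F, z ∈ B → ∃ c : Fin (Module.finrank R B) → R, z = ∑ k, algebraMap R F (c k) * ((b k : B) : F) := by
    intro z hz
    refine ⟨fun k => b.repr ⟨z, hz⟩ k, ?_⟩
    have h := congrArg (fun y : B => (y : F)) (b.sum_repr ⟨z, hz⟩)
    simp only [AddSubmonoidClass.coe_finsetSum, Subalgebra.coe_smul] at h
    refine h.symm.trans ?_
    refine Finset.sum_congr rfl fun k _ => ?_
    rw [Algebra.smul_def]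
  refine ⟨Module.finrank R B, fun k => ((b k : B) : F), ?_, ?_, ?_, ?_, ?_, ?_⟩
  · exact Module.finrank_pos
  · intro k
    exact IsIntegral.of_mem_of_fg B hfg _ (b k).2
  · intro c hc
    have hli := Fintype.linearIndependent_iff.1 b.linearIndependent c
    refine hli ?_
    apply Subtype.ext
    simp only [AddSubmonoidClass.coe_finsetSum, Subalgebra.coe_smul, ZeroMemClass.coe_zero]
    rw [← hc]
    refine Finset.sum_congr rfl fun k _ => ?_
    rw [Algebra.smul_def]
  · intro i j
    exact hexp _ (B.mul_mem (b i).2 (b j).2)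
  · exact hexp _ B.one_mem
  · intro i
    refine ⟨d i, hd i, ?_⟩
    refine hexp _ ?_
    rw [← Algebra.smul_def]
    exact Algebra.subset_adjoin ⟨i, rfl⟩

private theorem aeval_mem {π : Place K (Om K)} {u : Om K} (hu : u ∈ π.V) (p : K[X]) : aeval u p ∈ π.V := by
  rw [aeval_eq_sum_range]
  refine sum_mem fun i _ => ?_
  rw [Algebra.smul_def]
  exact mul_mem (π.const _).choose (pow_mem hu _)

theorem bas [IsAlgClosed K] {u : Om K} (hu : ∀ c : K, u ≠ algebraMap K (Om K) c) {l : ℕ} (x : Fin l → Om K) :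
    ∃ (n : ℕ) (w : Fin n → Om K), 0 < n ∧ (∀ (π : Place K (Om K)) (k : Fin n), u ∈ π.V → w k ∈ π.V) ∧
      (∀ c : Fin n → K[X], ∑ k, aeval u (c k) * w k = 0 → ∀ k, c k = 0) ∧
      (∀ i j, ∃ c : Fin n → K[X], w i * w j = ∑ k, aeval u (c k) * w k) ∧
      (∃ c : Fin n → K[X], 1 = ∑ k, aeval u (c k) * w k) ∧
      (∀ i, ∃ d : K[X], d ≠ 0 ∧ ∃ c : Fin n → K[X], aeval u d * x i = ∑ k, aeval u (c k) * w k) := by
  have hinj : Function.Injective (aeval u : K[X] →ₐ[K] Om K).toRingHom :=
    transcendental_iff_injective.1 (trans hu)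
  have halg : ∀ i, @IsAlgebraic K[X] (Om K) _ _ (aeval u : K[X] →ₐ[K] Om K).toRingHom.toAlgebra (x i) := by
    intro i
    obtain ⟨G, hG, hGx⟩ := alg hu (x i)
    exact ⟨G, hG, hGx⟩
  obtain ⟨n, w, hn, hint, hli, hmul, hone, hx⟩ :=
    @bas_gen K[X] (Om K) _ _ _ _ (aeval u : K[X] →ₐ[K] Om K).toRingHom.toAlgebra hinj l x halg
  refine ⟨n, w, hn, ?_, hli, hmul, hone, hx⟩
  intro π k hπ
  obtain ⟨p, hpm, hp⟩ := hint k
  refine mem_of_root (p := p.map (aeval u : K[X] →ₐ[K] Om K).toRingHom) (fun i => ?_) (hpm.map _) ?_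
  · rw [coeff_map]
    exact aeval_mem hπ _
  · rw [IsRoot, eval_map]
    exact hp

end H25.V1
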