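import Pool.Agent.H25.V1.One


/-! # V1.Fact1 : relations in one variable (about 100 lines)

`proj`: as `exists_swap` in `H25.KP.Lim`: the homomorphism `Finsupp.mapDomain Prod.fst` sends generators of `RatEq` to generators of `RatEq1`
(`S.map Prod.fst`, `Multiset.rel_map`).  The other facts: project the relations of `H25.KP.Fib`, `H25.KP.Sing` for pairs with second point `o`
(`cl a b P o = cl a b o o` means `pt P o - pt o o ∈ RatEq`: `QuotientAddGroup.eq`). -/

namespace H25.V1

open H68.BB H25.KP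

variable {K : Type} [Field K] {a b : MvPolynomial (Fin 2) K}

theorem proj {x : Cyc K} (hx : x ∈ RatEq a b) : Finsupp.mapDomain Prod.fst x ∈ RatEq1 a b := by
  let f : Cyc K →+ Cyc1 K := Finsupp.mapDomain.addMonoidHom (Prod.fst : Pt K × Pt K → Pt K)
  have hpt : ∀ P Q : Pt K, f (pt P Q) = Finsupp.single P 1 := fun P Q => Finsupp.mapDomain_single
  have hcyc : ∀ S : Multiset (Pt K × Pt K), f (cyc S) =
      ((S.map Prod.fst).map (fun p => (Finsupp.single p 1 : Cyc1 K))).sum := by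
    intro S
    rw [cyc, map_multiset_sum, Multiset.map_map, Multiset.map_map]
    congr 1
    apply Multiset.map_congr rfl
    intro s _
    exact hpt s.1 s.2
  have hle : RatEq a b ≤ (RatEq1 a b).comap f := by
    rw [H25.KP.RatEq, AddSubgroup.closure_le]
    rintro z ⟨S, π, π', c, c', hW, hG, h1, h2, rfl⟩
    show f (cyc c - cyc c') ∈ RatEq1 a b
    rw [map_sub, hcyc, hcyc]
    apply AddSubgroup.subset_closure
    have hrel : ∀ (π : Place K (Om K)) (c : Multiset (Pt K × Pt K)), Multiset.Rel (Sp2 π) S c →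
        Multiset.Rel (Sp π) (S.map Prod.fst) (c.map Prod.fst) := by
      intro π c h
      rw [Multiset.rel_map]
      exact h.mono (fun x _ y _ hxy => hxy.1)
    refine ⟨S.map Prod.fst, π, π', c.map Prod.fst, c'.map Prod.fst, ?_, ?_, hrel π c h1,
      hrel π' c' h2, rfl⟩
    · intro s hs
      obtain ⟨x, hx, rfl⟩ := Multiset.mem_map.mp hs
      exact (hW x hx).1
    · intro σ
      have h3 := congrArg (Multiset.map Prod.fst) (hG σ)
      rw [Multiset.map_map] at h3 ⊢
      exact h3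
  exact hle hx

/-- equality of classes of pairs, projected -/
private theorem proj_cl {P Q R S : Pt K} (h : cl a b P Q = cl a b R S) :
    (Finsupp.single P 1 - Finsupp.single R 1 : Cyc1 K) ∈ RatEq1 a b := by
  have h1 : -pt R S + pt P Q ∈ RatEq a b := QuotientAddGroup.eq.1 h.symm
  have h2 := proj h1
  have h3 : Finsupp.mapDomain Prod.fst (-pt R S + pt P Q) =
      (Finsupp.single P 1 - Finsupp.single R 1 : Cyc1 K) := by
    have h4 : ∀ x : Cyc K, Finsupp.mapDomain Prod.fst x =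
      Finsupp.mapDomain.addMonoidHom (Prod.fst : Pt K × Pt K → Pt K) x := fun _ => rfl
    rw [h4, map_add, map_neg, ← h4, ← h4, H25.KP.pt, H25.KP.pt, Finsupp.mapDomain_single, Finsupp.mapDomain_single]
    abel
  rwa [h3] at h2

private theorem aa_of_cl {P : Pt K} (h : cl a b P (o K) = cl a b (o K) (o K)) : aa P ∈ RatEq1 a b :=
  proj_cl h

theorem aa_prp [IsAlgClosed K] [NZ6 K] (ha : a.IsHomogeneous 8) (hb : b.IsHomogeneous 12) {P : Pt K}
    (hP : OnW a b P) {c : K} (hc : c ≠ 0) : aa (P.smul c) - aa P ∈ RatEq1 a b := by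
  have h := proj_cl (cl_smul hP (OnW_o K ha hb) hc)
  have e : aa (P.smul c) - aa P = Finsupp.single (P.smul c) 1 - Finsupp.single P 1 := by
    unfold aa; abel
  rw [e]
  exact h

theorem aa_sing [IsAlgClosed K] [NZ6 K] (ha : a.IsHomogeneous 8) (hb : b.IsHomogeneous 12) {P : Pt K}
    (hP : OnW a b P) (hD : ev (disc a b) P.t0 P.t1 = 0) : aa P ∈ RatEq1 a b :=
  aa_of_cl (cl_sing ha hb hP (OnW_o K ha hb) hD)

theorem aa_zero [IsAlgClosed K] [NZ6 K] (ha : a.IsHomogeneous 8) (hb : b.IsHomogeneous 12) {P : Pt K}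
    (hP : OnW a b P) (h0 : P.t0 = 0) (h1 : P.t1 = 0) : aa P ∈ RatEq1 a b :=
  aa_of_cl (cl_zero ha hb hP (OnW_o K ha hb) h0 h1)

private theorem ev_hom2 {q : MvPolynomial (Fin 2) K} {n : ℕ}
    (hq : q.IsHomogeneous n) (c t0 t1 : K) : ev q (c * t0) (c * t1) = c ^ n * ev q t0 t1 := by
  unfold ev
  rw [MvPolynomial.aeval_def, MvPolynomial.aeval_def, MvPolynomial.eval₂_eq', MvPolynomial.eval₂_eq',
    Finset.mul_sum]
  refine Finset.sum_congr rfl fun d hd => ?_
  have h1 : d 0 + d 1 = n := by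
    have h2 := hq (MvPolynomial.mem_support_iff.1 hd)
    rw [← h2]
    simp [Finsupp.weight_apply, Finsupp.sum_fintype, Fin.sum_univ_two]
  rw [Fin.prod_univ_two, Fin.prod_univ_two, ← h1]
  simp only [Matrix.cons_val_zero, Matrix.cons_val_one]
  ring

private theorem ev_disc_scale (ha : a.IsHomogeneous 8) (hb : b.IsHomogeneous 12) (c t0 t1 : K) :
    ev (disc a b) (c * t0) (c * t1) = c ^ 24 * ev (disc a b) t0 t1 := by
  have h1 : ∀ u v : K, ev (disc a b) u v = -4 * (ev a u v) ^ 3 - 27 * (ev b u v) ^ 2 := by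
    intro u v
    unfold ev disc
    simp only [map_sub, map_mul, map_neg, map_pow, map_ofNat]
  rw [h1, h1, ev_hom2 ha, ev_hom2 hb]
  ring

/-- points of the fibre over a zero `(u0 : u1)` of the discriminant -/
theorem aa_lin [IsAlgClosed K] [NZ6 K] (ha : a.IsHomogeneous 8) (hb : b.IsHomogeneous 12) {u0 u1 : K}
    (hu0 : u0 ≠ 0 ∨ u1 ≠ 0) (hu : ev (disc a b) u0 u1 = 0) {P : Pt K} (hP : OnW a b P) (h : lin u0 u1 P = 0) :
    aa P ∈ RatEq1 a b := by
  have h' : u1 * P.t0 = u0 * P.t1 := by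
    unfold lin at h
    simp only [Algebra.algebraMap_self, RingHom.id_apply] at h
    exact sub_eq_zero.1 h
  obtain ⟨c, hc0, hc1⟩ : ∃ c : K, P.t0 = c * u0 ∧ P.t1 = c * u1 := by
    rcases hu0 with h0 | h1
    · refine ⟨P.t0 / u0, by field_simp, ?_⟩
      field_simp
      linear_combination -h'
    · refine ⟨P.t1 / u1, ?_, by field_simp⟩
      field_simp
      linear_combination h'
  refine aa_sing ha hb hP ?_
  rw [hc0, hc1, ev_disc_scale ha hb, hu, mul_zero]

theorem aa_ZW (ha : a.IsHomogeneous 8) (hb : b.IsHomogeneous 12) {P : Pt K} (hP : OnW a b P) : aa P ∈ ZW a b :=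
  (ZW a b).sub_mem (AddSubgroup.subset_closure ⟨P, hP, rfl⟩)
    (AddSubgroup.subset_closure ⟨o K, OnW_o K ha hb, rfl⟩)

end H25.V1
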