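import Pool.Agent.H25.V1.Tr


/-! # V1.Count : the number of embeddings (about 200 lines)

Let `B = {∑_k e_k(u) w_k}` (closed under products by `hm`, contains `1`), `f = ∑_k c_k(u) w_k`, `q = |T|`.
(1) the `τ ∈ T` restricted to the multiplicative monoid `B` are pairwise distinct, so linearly independent (`linearIndependent_monoidHom`), so there are
`e_1, ..., e_q ∈ B` with `det (τ_i (e_j)) ≠ 0` (a matrix with `q` rows and infinitely many columns with independent rows has an invertible `q × q` minor; e.g. the span of the vectors `(τ_i e)_i` is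
everything, because a linear form vanishing on it is a linear dependence; then a basis among these vectors: `exists_linearIndependent`).
(2) the elements `f^l e_j` (`l ≤ M`) are linearly independent over `K`: `∑_j p_j(f) e_j = 0` with `p_j ∈ K[X]` gives `∑_j p_j(tt) τ_i(e_j) = 0` for all `i`, so
`p_j(tt) = 0` and `p_j = 0` (`transcendental_tt`).
(3) if the coefficients of the `e_j` have degree `≤ E` then `f^l e_j` has coefficients of degree `≤ E + l (D + A)`; the `K`-vector space of elements with coefficients of degree `≤ E + M (D + A)` has dimension `≤ n (E + M (D + A) + 1)`.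
So `q (M + 1) ≤ n (E + M (D + A) + 1)` for all `M`, hence `q ≤ n (D + A)` (if `q ≥ n (D + A) + 1` take `M = n (E + 1)`). -/

namespace H25.V1

open H68.BB H25.KP Polynomial

variable {K : Type} [Field K]

/-- the element with the coefficients `e` -/
private noncomputable def cntL {n : ℕ} (u : Om K) (w : Fin n → Om K) : (Fin n → K[X]) →ₗ[K] Om K where
  toFun e := ∑ k, aeval u (e k) * w k
  map_add' e e' := by
    simp only [Pi.add_apply, map_add, add_mul, Finset.sum_add_distrib]
  map_smul' c e := by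
    simp only [Pi.smul_apply, map_smul, RingHom.id_apply, Finset.smul_sum, smul_mul_assoc]

private theorem cntL_apply {n : ℕ} (u : Om K) (w : Fin n → Om K) (e : Fin n → K[X]) :
    cntL u w e = ∑ k, aeval u (e k) * w k := rfl

private theorem cnt_mul {n A : ℕ} {u : Om K} {w : Fin n → Om K}
    (hm : ∀ i j, ∃ c : Fin n → K[X], (∀ k, (c k).natDegree ≤ A) ∧ w i * w j = ∑ k, aeval u (c k) * w k)
    {s t : ℕ} {x y : Fin n → K[X]} (hx : ∀ k, (x k).natDegree ≤ s) (hy : ∀ k, (y k).natDegree ≤ t) :
    ∃ z : Fin n → K[X], (∀ k, (z k).natDegree ≤ s + t + A) ∧ cntL u w z = cntL u w x * cntL u w y := by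
  choose m hmd hme using hm
  refine ⟨fun k => ∑ i, ∑ j, x i * y j * m i j k, fun k => ?_, ?_⟩
  · refine natDegree_sum_le_of_forall_le _ _ (fun i _ => natDegree_sum_le_of_forall_le _ _ (fun j _ => ?_))
    calc (x i * y j * m i j k).natDegree ≤ (x i * y j).natDegree + (m i j k).natDegree := natDegree_mul_le
      _ ≤ ((x i).natDegree + (y j).natDegree) + (m i j k).natDegree :=
          Nat.add_le_add_right natDegree_mul_le _
      _ ≤ s + t + A := Nat.add_le_add (Nat.add_le_add (hx i) (hy j)) (hmd i j k)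
  · rw [cntL_apply, cntL_apply, cntL_apply, Finset.sum_mul_sum]
    simp only [map_sum, map_mul, Finset.sum_mul]
    rw [Finset.sum_comm]
    refine Finset.sum_congr rfl (fun i _ => ?_)
    rw [Finset.sum_comm]
    refine Finset.sum_congr rfl (fun j _ => ?_)
    calc ∑ k, aeval u (x i) * aeval u (y j) * aeval u (m i j k) * w k =
        aeval u (x i) * aeval u (y j) * ∑ k, aeval u (m i j k) * w k := by
          rw [Finset.mul_sum]
          exact Finset.sum_congr rfl (fun k _ => by ring)
      _ = aeval u (x i) * aeval u (y j) * (w i * w j) := by rw [hme]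
      _ = _ := by ring

private theorem cnt_bd {n : ℕ} (x : Fin n → K[X]) : ∃ s : ℕ, ∀ k, (x k).natDegree ≤ s :=
  ⟨Finset.univ.sup (fun k => (x k).natDegree),
    fun k => Finset.le_sup (f := fun k => (x k).natDegree) (Finset.mem_univ k)⟩

private theorem cnt_pow {n A D : ℕ} {u : Om K} {w : Fin n → Om K}
    (hm : ∀ i j, ∃ c : Fin n → K[X], (∀ k, (c k).natDegree ≤ A) ∧ w i * w j = ∑ k, aeval u (c k) * w k)
    {c : Fin n → K[X]} (hc : ∀ k, (c k).natDegree ≤ D) {s : ℕ} {x : Fin n → K[X]}
    (hx : ∀ k, (x k).natDegree ≤ s) (l : ℕ) :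
    ∃ z : Fin n → K[X], (∀ k, (z k).natDegree ≤ s + l * (D + A)) ∧
      cntL u w z = cntL u w c ^ l * cntL u w x := by
  induction l with
  | zero => exact ⟨x, fun k => by simpa using hx k, by simp⟩
  | succ l ih =>
    obtain ⟨z, hz, hzz⟩ := ih
    obtain ⟨z', hz', hzz'⟩ := cnt_mul hm hz hc
    refine ⟨z', fun k => (hz' k).trans (le_of_eq (by ring)), ?_⟩
    rw [hzz', hzz]
    ring

theorem count {n A D : ℕ} {u : Om K} {w : Fin n → Om K}
    (hm : ∀ i j, ∃ c : Fin n → K[X], (∀ k, (c k).natDegree ≤ A) ∧ w i * w j = ∑ k, aeval u (c k) * w k)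
    (h1 : ∃ c : Fin n → K[X], 1 = ∑ k, aeval u (c k) * w k) {c : Fin n → K[X]} (hc : ∀ k, (c k).natDegree ≤ D)
    (T : Finset (Om K →ₐ[K] Om K)) (hT : ∀ τ ∈ T, τ (∑ k, aeval u (c k) * w k) = tt K)
    (hne : ∀ τ ∈ T, ∀ τ' ∈ T, τ ≠ τ' → ∃ e : Fin n → K[X],
      τ (∑ k, aeval u (e k) * w k) ≠ τ' (∑ k, aeval u (e k) * w k)) :
    T.card ≤ n * (D + A) := by
  classical
  by_contra hcon
  have hcon' : n * (D + A) + 1 ≤ T.card := by omega
  have ttr : Transcendental K (tt K) := transcendental_tt
  have hTf : ∀ τ ∈ T, τ (cntL u w c) = tt K := hT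
  have hmul : ∀ x y, ∃ z, cntL u w z = cntL u w x * cntL u w y := by
    intro x y
    obtain ⟨s, hs⟩ := cnt_bd x
    obtain ⟨t, ht⟩ := cnt_bd y
    obtain ⟨z, _, hz⟩ := cnt_mul hm hs ht
    exact ⟨z, hz⟩
  let B : Submonoid (Om K) :=
    { carrier := Set.range (cntL u w)
      mul_mem' := by
        rintro _ _ ⟨x, rfl⟩ ⟨y, rfl⟩
        exact hmul x y
      one_mem' := by
        obtain ⟨e, he⟩ := h1
        exact ⟨e, he.symm⟩ }
  let ρ : T → (B →* Om K) := fun τ => ((τ : Om K →ₐ[K] Om K) : Om K →* Om K).comp B.subtype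
  have hρ : Function.Injective ρ := by
    intro τ τ' h
    by_contra hττ
    obtain ⟨e, he⟩ := hne τ τ.2 τ' τ'.2 (fun h' => hττ (Subtype.ext h'))
    exact he (DFunLike.congr_fun h (⟨cntL u w e, e, rfl⟩ : B))
  have hli : LinearIndependent (Om K) (fun τ : T => ((ρ τ : B →* Om K) : B → Om K)) :=
    (linearIndependent_monoidHom B (Om K)).comp ρ hρ
  let v : (Fin n → K[X]) → (T → Om K) := fun e τ => (τ : Om K →ₐ[K] Om K) (cntL u w e)
  have hspan : Submodule.span (Om K) (Set.range v) = ⊤ := by
    by_contra hne'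
    obtain ⟨φ, hφ0, hφ⟩ := Submodule.exists_le_ker_of_lt_top _ (lt_top_iff_ne_top.mpr hne')
    apply hφ0
    have hrep : ∀ y : T → Om K, φ y = ∑ τ : T, φ (Pi.single τ 1) * y τ := by
      intro y
      have hy : y = ∑ τ : T, y τ • (Pi.single τ 1 : T → Om K) := by
        funext σ
        rw [Finset.sum_apply]
        simp [Pi.single_apply]
      conv_lhs => rw [hy]
      rw [map_sum]
      exact Finset.sum_congr rfl (fun τ _ => by rw [map_smul, smul_eq_mul, mul_comm])
    have key : ∑ τ : T, φ (Pi.single τ 1) • ((ρ τ : B →* Om K) : B → Om K) = 0 := by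
      funext x
      obtain ⟨x, e, rfl⟩ := x
      rw [Finset.sum_apply]
      have h2 : φ (v e) = 0 := hφ (Submodule.subset_span ⟨e, rfl⟩)
      rw [hrep] at h2
      exact h2
    have h0 := Fintype.linearIndependent_iff.mp hli _ key
    refine LinearMap.ext (fun y => ?_)
    rw [hrep, LinearMap.zero_apply]
    exact Finset.sum_eq_zero (fun τ _ => by rw [h0 τ, zero_mul])
  obtain ⟨b, hbs, hbspan, hbli⟩ := exists_linearIndependent (Om K) (Set.range v)
  rw [hspan] at hbspan
  let bb : Module.Basis b (Om K) (T → Om K) := Module.Basis.mk hbli (by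
    rw [Subtype.range_coe, hbspan])
  have : Finite b := Module.Finite.finite_basis bb
  let _ : Fintype b := Fintype.ofFinite b
  have hcard : Fintype.card b = T.card := by
    rw [← Module.finrank_eq_card_basis bb, Module.finrank_pi, Fintype.card_coe]
  choose e he using fun j : b => hbs j.2
  obtain ⟨E, hE⟩ : ∃ E : ℕ, ∀ (j : b) (k : Fin n), (e j k).natDegree ≤ E := by
    choose s hs using fun j : b => cnt_bd (e j)
    exact ⟨Finset.univ.sup s, fun j k => (hs j k).trans (Finset.le_sup (f := s) (Finset.mem_univ j))⟩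
  set M : ℕ := n * (E + 1) with hM
  set S : ℕ := E + M * (D + A) with hS
  have hx : ∀ p : b × Fin (M + 1), ∃ x : Fin n → degreeLT K (S + 1),
      cntL u w (fun k => (x k : K[X])) = cntL u w c ^ (p.2 : ℕ) * cntL u w (e p.1) := by
    intro p
    obtain ⟨z, hz, hzz⟩ := cnt_pow hm hc (hE p.1) p.2
    refine ⟨fun k => ⟨z k, ?_⟩, hzz⟩
    rw [mem_degreeLT]
    refine lt_of_le_of_lt degree_le_natDegree ?_
    have h3 : (z k).natDegree ≤ S := (hz k).trans (by
      rw [hS]
      exact Nat.add_le_add_left (Nat.mul_le_mul_right _ (Nat.lt_succ_iff.mp p.2.2)) _)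
    exact_mod_cast Nat.lt_succ_iff.mpr h3
  choose x hxx using hx
  have hdep : ¬ LinearIndependent K x := by
    intro hxi
    have h4 := hxi.fintype_card_le_finrank
    rw [Module.finrank_pi_fintype, Fintype.card_prod, hcard, Fintype.card_fin] at h4
    have h5 : Module.finrank K (degreeLT K (S + 1)) = S + 1 := by
      rw [(degreeLTEquiv K (S + 1)).finrank_eq, Module.finrank_pi, Fintype.card_fin]
    simp only [h5, Finset.sum_const, Finset.card_univ, Fintype.card_fin, smul_eq_mul] at h4
    have h6 : (n * (D + A) + 1) * (M + 1) ≤ n * (S + 1) := (Nat.mul_le_mul_right _ hcon').trans h4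
    have h7 : n * (S + 1) = n * (E + 1) + n * (D + A) * M := by rw [hS]; ring
    have h8 : (n * (D + A) + 1) * (M + 1) = n * (D + A) * M + n * (D + A) + M + 1 := by ring
    rw [h7, h8, ← hM] at h6
    omega
  rw [Fintype.not_linearIndependent_iff] at hdep
  obtain ⟨γ, hγ, ⟨j0, l0⟩, hγ0⟩ := hdep
  -- the relation in `Om K`
  have hrel : ∑ j : b, ∑ l : Fin (M + 1), algebraMap K (Om K) (γ (j, l)) *
      (cntL u w c ^ (l : ℕ) * cntL u w (e j)) = 0 := by
    have h9 : cntL u w (fun k => ((∑ p, γ p • x p) k : K[X])) =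
        ∑ p : b × Fin (M + 1), algebraMap K (Om K) (γ p) * (cntL u w c ^ (p.2 : ℕ) * cntL u w (e p.1)) := by
      have h10 : (fun k => ((∑ p, γ p • x p) k : K[X])) = ∑ p, γ p • (fun k => (x p k : K[X])) := by
        funext k
        simp only [Finset.sum_apply, Pi.smul_apply, Submodule.coe_sum, Submodule.coe_smul]
      rw [h10, map_sum]
      exact Finset.sum_congr rfl (fun p _ => by rw [map_smul, hxx, Algebra.smul_def])
    rw [hγ] at h9
    rw [Fintype.sum_prod_type] at h9
    rw [← h9]
    have : (fun k => (((0 : Fin n → degreeLT K (S + 1)) k : degreeLT K (S + 1)) : K[X])) = 0 := by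
      funext k
      rfl
    rw [this, map_zero]
  have hvec : ∑ j : b, (∑ l : Fin (M + 1), algebraMap K (Om K) (γ (j, l)) * tt K ^ (l : ℕ)) • (j : T → Om K) = 0 := by
    funext τ
    have h11 := congrArg (τ : Om K →ₐ[K] Om K) hrel
    rw [map_sum, map_zero] at h11
    rw [Finset.sum_apply, Pi.zero_apply, ← h11]
    refine Finset.sum_congr rfl (fun j _ => ?_)
    have h12 : (j : T → Om K) τ = (τ : Om K →ₐ[K] Om K) (cntL u w (e j)) := by
      rw [← he j]
    rw [Pi.smul_apply, smul_eq_mul, h12, map_sum, Finset.sum_mul]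
    refine Finset.sum_congr rfl (fun l _ => ?_)
    rw [map_mul, map_mul, map_pow, hTf τ τ.2, AlgHom.commutes]
    ring
  have h13 := Fintype.linearIndependent_iff.mp hbli _ hvec j0
  -- transcendence of `tt`
  have h14 : aeval (tt K) (∑ l : Fin (M + 1), C (γ (j0, l)) * X ^ (l : ℕ)) = 0 := by
    rw [map_sum, ← h13]
    exact Finset.sum_congr rfl (fun l _ => by rw [map_mul, aeval_C, map_pow, aeval_X])
  have h15 := (transcendental_iff.mp ttr) _ h14
  have h16 := congrArg (fun p : K[X] => p.coeff (l0 : ℕ)) h15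
  simp only [finsetSum_coeff, coeff_C_mul, coeff_X_pow, coeff_zero] at h16
  rw [Finset.sum_eq_single l0] at h16
  · simp at h16
    exact hγ0 h16
  · intro l _ hl
    rw [if_neg (fun h => hl (Fin.ext h.symm)), mul_zero]
  · intro h
    exact absurd (Finset.mem_univ _) h

end H25.V1
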