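import Mathlib


/-! # V1.Lina : linear algebra (about 60 lines, Mathlib only)

The space of the `c` with `natDegree ≤ D` has dimension `n (D + 1) > r`: unknown coefficients `e : Fin n × Fin (D + 1) → K`, `c k = ∑_j C (e (k, j)) * X ^ j`;
a linear map to `Fin r → K` has a nonzero kernel element (`LinearMap.exists_ne_zero_of_finrank_lt`.., or `Matrix.exists_mulVec_eq_zero_iff`, or
`exists_ne_zero_of_...`: search `ker_ne_bot_of_finrank_lt`). -/

namespace H25.V1

open Polynomial

theorem lina {K : Type} [Field K] {n D r : ℕ} (h : r < n * (D + 1)) (u : Fin r → K) (v : Fin r → Fin n → K) :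
    ∃ c : Fin n → K[X], (∃ k, c k ≠ 0) ∧ (∀ k, (c k).natDegree ≤ D) ∧ ∀ i, ∑ k, (c k).eval (u i) * v i k = 0 := by
  classical
  let L : (Fin n × Fin (D + 1) → K) →ₗ[K] (Fin r → K) :=
    { toFun := fun e i => ∑ k : Fin n, (∑ j : Fin (D + 1), e (k, j) * u i ^ (j : ℕ)) * v i k
      map_add' := by
        intro e f
        funext i
        simp only [Pi.add_apply, add_mul, Finset.sum_add_distrib]
      map_smul' := by
        intro a e
        funext i
        simp only [Pi.smul_apply, smul_eq_mul, RingHom.id_apply, Finset.mul_sum, Finset.sum_mul, mul_assoc] }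
  have hfin : Module.finrank K (Fin r → K) < Module.finrank K (Fin n × Fin (D + 1) → K) := by
    simpa [Module.finrank_fintype_fun_eq_card] using h
  have hker : LinearMap.ker L ≠ ⊥ := LinearMap.ker_ne_bot_of_finrank_lt hfin
  obtain ⟨e, he, hne⟩ := (Submodule.ne_bot_iff _).1 hker
  rw [LinearMap.mem_ker] at he
  obtain ⟨⟨k0, j0⟩, hkj⟩ : ∃ q, e q ≠ 0 := by
    by_contra hcon
    push Not at hcon
    exact hne (funext hcon)
  refine ⟨fun k => ∑ j : Fin (D + 1), C (e (k, j)) * X ^ (j : ℕ), ⟨k0, ?_⟩, ?_, ?_⟩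
  · intro h0
    have h1 := congrArg (fun P : K[X] => P.coeff (j0 : ℕ)) h0
    simp only [finsetSum_coeff, coeff_C_mul, coeff_X_pow, coeff_zero] at h1
    rw [Finset.sum_eq_single j0] at h1
    · simp at h1
      exact hkj h1
    · intro b _ hb
      have : (j0 : ℕ) ≠ (b : ℕ) := fun hh => hb (Fin.ext hh.symm)
      simp [this]
    · intro hh
      exact absurd (Finset.mem_univ _) hh
  · intro k
    refine natDegree_sum_le_of_forall_le _ _ ?_
    intro j _
    refine (natDegree_C_mul_X_pow_le _ _).trans ?_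
    exact Nat.lt_succ_iff.1 j.2
  · intro i
    have h1 := congrFun he i
    simp only [L, LinearMap.coe_mk, AddHom.coe_mk, Pi.zero_apply] at h1
    rw [← h1]
    refine Finset.sum_congr rfl ?_
    intro k _
    congr 1
    simp [eval_finsetSum]

end H25.V1
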