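import Pool.Agent.H25.V1.One


/-! # V1.Forms : weighted forms of degree 12 separate points (about 200 lines)

`fm A P` = the value at `P` of the form of degree 12 with coefficients `A`.
One point `c`: if every form vanishing at `P` vanishes at `c` then the vectors of monomials at `c` and `P` are proportional (`mon(c) = l mon(P)`, because the functional `fm · c` vanishes on the kernel of
`fm · P`; `l ≠ 0` since some monomial `t0^12, t1^12, x^3, y^2` is not zero at `c`); take `μ^12 = l` and replace `P` by `P.smul μ`: all monomials of degree 12 have the same values.  If `P.t0 ≠ 0`: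
`t0^12` and `t0^11 t1`, `t0^8 x`, `t0^6 y` show that `c = P.smul ζ`, `ζ = c.t0 / P.t0`, `ζ^12 = 1`.  The same if `P.t1 ≠ 0`.  If both vanish: then for `c` too, `x^3` and `y^2` (nonzero) are the same
and `y^2 = x^3` for both points: with `r = c.x / P.x`, `s = c.y / P.y`: `r^3 = 1 = s^2`, take `c = P.smul ζ` with `ζ^4 = r`, `ζ^6 = s` (e.g. `ζ = r * i` with `i^4 = 1`, `i^6 = s`, i.e. `i = 1` or `i^2 = -1`: then `ζ^4 = r^4 = r`, `ζ^6 = r^6 i^6 = s`).
Finitely many points: a vector space over an infinite field is not a finite union of proper subspaces (`Subspace.biUnion_ne_univ_of_top_notMem` or similar), applied in the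
space of forms vanishing at `P`; for `B`: in the space of all forms (supported on `mon`).  -/

namespace H25.V1

open H68.BB H25.KP

/-- the exponents of the monomials of degree 12 -/
def mon : Finset (ℕ × ℕ × ℕ × ℕ) :=
  ((Finset.range 13) ×ˢ (Finset.range 13) ×ˢ (Finset.range 4) ×ˢ (Finset.range 3)).filter
    (fun i => i.1 + i.2.1 + 4 * i.2.2.1 + 6 * i.2.2.2 = 12)

/-- the value of the form with coefficients `A` -/
noncomputable def fm {K : Type} [Field K] (A : ℕ × ℕ × ℕ × ℕ → K) {F : Type} [Field F] [Algebra K F] (P : Pt F) : F :=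
  ∑ i ∈ mon, algebraMap K F (A i) * (P.t0 ^ i.1 * P.t1 ^ i.2.1 * P.x ^ i.2.2.1 * P.y ^ i.2.2.2)

variable {K : Type} [Field K] {a b : MvPolynomial (Fin 2) K}

private theorem mon_deg {i : ℕ × ℕ × ℕ × ℕ} (hi : i ∈ mon) : i.1 + i.2.1 + 4 * i.2.2.1 + 6 * i.2.2.2 = 12 :=
  (Finset.mem_filter.1 hi).2

private theorem mon_smul {F : Type} [Field F] (c : F) (P : Pt F) {i : ℕ × ℕ × ℕ × ℕ} (hi : i ∈ mon) :
    (P.smul c).t0 ^ i.1 * (P.smul c).t1 ^ i.2.1 * (P.smul c).x ^ i.2.2.1 * (P.smul c).y ^ i.2.2.2 =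
      c ^ 12 * (P.t0 ^ i.1 * P.t1 ^ i.2.1 * P.x ^ i.2.2.1 * P.y ^ i.2.2.2) := by
  rw [← mon_deg hi]
  show (c * P.t0) ^ i.1 * (c * P.t1) ^ i.2.1 * (c ^ 4 * P.x) ^ i.2.2.1 * (c ^ 6 * P.y) ^ i.2.2.2 = _
  ring

theorem fm_smul (A : ℕ × ℕ × ℕ × ℕ → K) {F : Type} [Field F] [Algebra K F] (c : F) (P : Pt F) :
    fm A (P.smul c) = c ^ 12 * fm A P := by
  unfold fm
  rw [Finset.mul_sum]
  refine Finset.sum_congr rfl fun i hi => ?_
  rw [mon_smul c P hi]
  ring

private theorem rd_sum {ι F κ : Type} [Field F] [Field κ] {V : ValuationSubring F} {φ : V →+* κ} (s : Finset ι)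
    (f : ι → F) (g : ι → κ) (h : ∀ i ∈ s, Rd V φ (f i) (g i)) : Rd V φ (∑ i ∈ s, f i) (∑ i ∈ s, g i) := by
  classical
  induction s using Finset.induction_on with
  | empty => rw [Finset.sum_empty, Finset.sum_empty]; exact Rd.zero
  | insert i s hi ih =>
    rw [Finset.sum_insert hi, Finset.sum_insert hi]
    exact (h i (Finset.mem_insert_self _ _)).add (ih fun j hj => h j (Finset.mem_insert_of_mem hj))

theorem fm_rd (A : ℕ × ℕ × ℕ × ℕ → K) {π : Place K (Om K)} {P : Pt (Om K)} {p : Pt K} {c : Om K}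
    (h0 : Rd π.V π.φ (c * P.t0) p.t0) (h1 : Rd π.V π.φ (c * P.t1) p.t1)
    (h2 : Rd π.V π.φ (c ^ 4 * P.x) p.x) (h3 : Rd π.V π.φ (c ^ 6 * P.y) p.y) :
    Rd π.V π.φ (c ^ 12 * fm A P) (fm A p) := by
  rw [← fm_smul]
  unfold fm
  refine rd_sum _ _ _ fun i _ => ?_
  have hA : Rd π.V π.φ (algebraMap K (Om K) (A i)) (algebraMap K K (A i)) := π.const (A i)
  exact hA.mul ((((h0.pow i.1).mul (h1.pow i.2.1)).mul (h2.pow i.2.2.1)).mul (h3.pow i.2.2.2))

theorem fm_map (A : ℕ × ℕ × ℕ × ℕ → K) (τ : Om K →ₐ[K] Om K) (P : Pt (Om K)) : fm A (P.map τ) = τ (fm A P) := by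
  unfold fm
  rw [map_sum]
  refine Finset.sum_congr rfl fun i _ => ?_
  rw [map_mul, map_mul, map_mul, map_mul, map_pow, map_pow, map_pow, map_pow, AlgHom.commutes]
  rfl

/-- the value of a monomial -/
private noncomputable def mv (i : ℕ × ℕ × ℕ × ℕ) (P : Pt K) : K :=
  P.t0 ^ i.1 * P.t1 ^ i.2.1 * P.x ^ i.2.2.1 * P.y ^ i.2.2.2

/-- the value at `P` as a linear functional -/
private noncomputable def fl (P : Pt K) : Module.Dual K (ℕ × ℕ × ℕ × ℕ → K) where
  toFun A := fm A P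
  map_add' A B := by
    unfold fm
    rw [← Finset.sum_add_distrib]
    refine Finset.sum_congr rfl fun i _ => ?_
    rw [Pi.add_apply, map_add, add_mul]
  map_smul' c A := by
    unfold fm
    rw [RingHom.id_apply, smul_eq_mul, Finset.mul_sum]
    refine Finset.sum_congr rfl fun i _ => ?_
    rw [Pi.smul_apply, smul_eq_mul, map_mul, mul_assoc]
    rfl

private theorem fl_apply (P : Pt K) (A : ℕ × ℕ × ℕ × ℕ → K) : fl P A = fm A P := rfl

open Classical in
private theorem fl_single (P : Pt K) {i : ℕ × ℕ × ℕ × ℕ} (hi : i ∈ mon) : fl P (Pi.single i 1) = mv i P := by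
  rw [fl_apply]
  unfold fm
  rw [Finset.sum_eq_single i]
  · rw [Pi.single_eq_same, map_one, one_mul]; rfl
  · intro j _ hj
    rw [Pi.single_eq_of_ne hj, map_zero, zero_mul]
  · intro h; exact absurd hi h

private theorem mv_smul (c : K) (P : Pt K) {i : ℕ × ℕ × ℕ × ℕ} (hi : i ∈ mon) : mv i (P.smul c) = c ^ 12 * mv i P :=
  mon_smul c P hi

private theorem m0 : ((12, 0, 0, 0) : ℕ × ℕ × ℕ × ℕ) ∈ mon := by simp [mon]
private theorem m1 : ((0, 12, 0, 0) : ℕ × ℕ × ℕ × ℕ) ∈ mon := by simp [mon]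
private theorem m2 : ((0, 0, 3, 0) : ℕ × ℕ × ℕ × ℕ) ∈ mon := by simp [mon]
private theorem m3 : ((0, 0, 0, 2) : ℕ × ℕ × ℕ × ℕ) ∈ mon := by simp [mon]
private theorem m01 : ((11, 1, 0, 0) : ℕ × ℕ × ℕ × ℕ) ∈ mon := by simp [mon]
private theorem m02 : ((8, 0, 1, 0) : ℕ × ℕ × ℕ × ℕ) ∈ mon := by simp [mon]
private theorem m03 : ((6, 0, 0, 1) : ℕ × ℕ × ℕ × ℕ) ∈ mon := by simp [mon]
private theorem m10 : ((1, 11, 0, 0) : ℕ × ℕ × ℕ × ℕ) ∈ mon := by simp [mon]
private theorem m12 : ((0, 8, 1, 0) : ℕ × ℕ × ℕ × ℕ) ∈ mon := by simp [mon]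
private theorem m13 : ((0, 6, 0, 1) : ℕ × ℕ × ℕ × ℕ) ∈ mon := by simp [mon]

/-- some monomial is not zero at a point -/
private theorem exists_mv {P : Pt K} (hP : P.NZ) : ∃ i ∈ mon, mv i P ≠ 0 := by
  rcases hP with h | h | h | h
  · exact ⟨_, m0, by unfold mv; simpa using pow_ne_zero 12 h⟩
  · exact ⟨_, m1, by unfold mv; simpa using pow_ne_zero 12 h⟩
  · exact ⟨_, m2, by unfold mv; simpa using pow_ne_zero 3 h⟩
  · exact ⟨_, m3, by unfold mv; simpa using pow_ne_zero 2 h⟩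

private theorem ev00 {n : ℕ} (hn : n ≠ 0) (ha : a.IsHomogeneous n) : ev a (0 : K) 0 = 0 := by
  unfold ev
  rw [MvPolynomial.aeval_def, MvPolynomial.eval₂_eq']
  refine Finset.sum_eq_zero fun d hd => ?_
  have h1 : d 0 + d 1 = n := by
    have h2 := ha (MvPolynomial.mem_support_iff.1 hd)
    rw [← h2]
    simp [Finsupp.weight_apply, Finsupp.sum_fintype, Fin.sum_univ_two]
  rw [Fin.prod_univ_two]
  simp only [Matrix.cons_val_zero, Matrix.cons_val_one]
  by_cases h0 : d 0 = 0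
  · have h3 : d 1 ≠ 0 := by omega
    rw [zero_pow h3, mul_zero, mul_zero]
  · rw [zero_pow h0, zero_mul, mul_zero]

/-- a point with `t0 = t1 = 0` is proportional to `o` -/
private theorem to_o [IsAlgClosed K] (ha : a.IsHomogeneous 8) (hb : b.IsHomogeneous 12) {P : Pt K} (hP : OnW a b P)
    (h0 : P.t0 = 0) (h1 : P.t1 = 0) : ∃ c : K, c ≠ 0 ∧ P.smul c = o K := by
  have h2 := hP.2
  rw [h0, h1, ev00 (by norm_num) ha, ev00 (by norm_num) hb, zero_mul, add_zero, add_zero] at h2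
  have h3 : P.x ≠ 0 ∧ P.y ≠ 0 := by
    rcases hP.1 with h | h | h | h
    · exact absurd h0 h
    · exact absurd h1 h
    · refine ⟨h, fun hy => h ?_⟩
      rw [hy, zero_pow (by norm_num)] at h2
      exact pow_eq_zero_iff (by norm_num) |>.1 h2.symm
    · refine ⟨fun hx => h ?_, h⟩
      rw [hx, zero_pow (by norm_num)] at h2
      exact pow_eq_zero_iff (by norm_num) |>.1 h2
  obtain ⟨hx, hy⟩ := h3
  obtain ⟨c, hc⟩ := IsAlgClosed.exists_pow_nat_eq (P.x / P.y) (n := 2) (by norm_num)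
  have hc0 : c ≠ 0 := by
    rintro rfl
    rw [zero_pow (by norm_num)] at hc
    exact div_ne_zero hx hy hc.symm
  refine ⟨c, hc0, ?_⟩
  unfold Pt.smul o
  rw [h0, h1]
  have e4 : c ^ 4 * P.x = 1 := by
    have : c ^ 4 = (P.x / P.y) ^ 2 := by rw [← hc]; ring
    rw [this]
    field_simp
    exact h2.symm
  have e6 : c ^ 6 * P.y = 1 := by
    have : c ^ 6 = (P.x / P.y) ^ 3 := by rw [← hc]; ring
    rw [this]
    field_simp
    exact h2.symm
  rw [e4, e6, mul_zero]

private theorem smul_smul' {F : Type} [Field F] (c d : F) (P : Pt F) : (P.smul c).smul d = P.smul (d * c) := by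
  unfold Pt.smul
  ext <;> dsimp only <;> ring

private theorem smul_one' {F : Type} [Field F] (P : Pt F) : P.smul 1 = P := by
  unfold Pt.smul
  ext <;> dsimp only <;> ring

private theorem canc {r u x X : K} (hu : u ≠ 0) {k m : ℕ} (hkm : k + m = 12) (h12 : (r * u) ^ 12 = u ^ 12)
    (h : (r * u) ^ k * x = u ^ k * X) : x = r ^ m * X := by
  have h1 : r ^ 12 = 1 := by
    rw [mul_pow] at h12
    exact mul_right_cancel₀ (pow_ne_zero 12 hu) (h12.trans (one_mul _).symm)
  have h2 : r ^ k * x = X := by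
    rw [mul_pow, mul_comm (r ^ k), mul_assoc] at h
    exact mul_left_cancel₀ (pow_ne_zero k hu) h
  rw [← h2, ← mul_assoc, ← pow_add, add_comm m k, hkm, h1, one_mul]

/-- if all monomials of degree 12 have the same values then the points are proportional -/
private theorem prp_of_mv [IsAlgClosed K] (ha : a.IsHomogeneous 8) (hb : b.IsHomogeneous 12) {P c : Pt K}
    (hP : OnW a b P) (hc : OnW a b c) {l : K} (hl : l ≠ 0) (h : ∀ i ∈ mon, mv i c = l * mv i P) : Prp P c := by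
  obtain ⟨μ, hμ⟩ := IsAlgClosed.exists_pow_nat_eq l (n := 12) (by norm_num)
  have hμ0 : μ ≠ 0 := by
    rintro rfl
    rw [zero_pow (by norm_num)] at hμ
    exact hl hμ.symm
  have h' : ∀ i ∈ mon, mv i c = mv i (P.smul μ) := by
    intro i hi
    rw [h i hi, mv_smul μ P hi, hμ]
  -- it is enough to prove it for `P.smul μ`
  suffices hh : ∃ ζ : K, ζ ≠ 0 ∧ c = (P.smul μ).smul ζ by
    obtain ⟨ζ, hζ, hc'⟩ := hh
    exact ⟨ζ * μ, mul_ne_zero hζ hμ0, by rw [hc', smul_smul']⟩
  generalize hQ : P.smul μ = Q at h'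
  have e0 := h' _ m0
  have e1 := h' _ m1
  have e01 := h' _ m01
  have e02 := h' _ m02
  have e03 := h' _ m03
  have e10 := h' _ m10
  have e12 := h' _ m12
  have e13 := h' _ m13
  simp only [mv, pow_zero, mul_one, one_mul, pow_one] at e0 e1 e01 e02 e03 e10 e12 e13
  by_cases h0 : Q.t0 = 0
  · by_cases h1 : Q.t1 = 0
    · -- both points are proportional to `o`
      have hc0 : c.t0 = 0 := by
        rw [h0, zero_pow (by norm_num)] at e0
        exact pow_eq_zero_iff (by norm_num) |>.1 e0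
      have hc1 : c.t1 = 0 := by
        rw [h1, zero_pow (by norm_num)] at e1
        exact pow_eq_zero_iff (by norm_num) |>.1 e1
      have hP0 : P.t0 = 0 := by
        have : μ * P.t0 = 0 := by rw [← h0, ← hQ]; rfl
        exact (mul_eq_zero.1 this).resolve_left hμ0
      have hP1 : P.t1 = 0 := by
        have : μ * P.t1 = 0 := by rw [← h1, ← hQ]; rfl
        exact (mul_eq_zero.1 this).resolve_left hμ0
      obtain ⟨u, hu, hu'⟩ := to_o ha hb hP hP0 hP1
      obtain ⟨v, hv, hv'⟩ := to_o ha hb hc hc0 hc1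
      refine ⟨v⁻¹ * u * μ⁻¹, mul_ne_zero (mul_ne_zero (inv_ne_zero hv) hu) (inv_ne_zero hμ0), ?_⟩
      rw [← hQ, smul_smul', mul_assoc, inv_mul_cancel₀ hμ0, mul_one, ← smul_smul', hu', ← hv', smul_smul',
        inv_mul_cancel₀ hv, smul_one']
    · have hc1 : c.t1 ≠ 0 := by
        intro h
        rw [h, zero_pow (by norm_num)] at e1
        exact h1 (pow_eq_zero_iff (by norm_num) |>.1 e1.symm)
      refine ⟨c.t1 / Q.t1, div_ne_zero hc1 h1, ?_⟩
      have hr : c.t1 / Q.t1 * Q.t1 = c.t1 := div_mul_cancel₀ _ h1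
      rw [← hr] at e1
      unfold Pt.smul
      ext
      · show c.t0 = c.t1 / Q.t1 * Q.t0
        have h2 := canc h1 (k := 11) (m := 1) rfl e1 (x := c.t0) (X := Q.t0) (by rw [hr]; linear_combination e10)
        rw [pow_one] at h2; exact h2
      · exact hr.symm
      · exact canc h1 (k := 8) (m := 4) rfl e1 (by rw [hr]; exact e12)
      · exact canc h1 (k := 6) (m := 6) rfl e1 (by rw [hr]; exact e13)
  · have hc1 : c.t0 ≠ 0 := by
      intro h
      rw [h, zero_pow (by norm_num)] at e0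
      exact h0 (pow_eq_zero_iff (by norm_num) |>.1 e0.symm)
    refine ⟨c.t0 / Q.t0, div_ne_zero hc1 h0, ?_⟩
    have hr : c.t0 / Q.t0 * Q.t0 = c.t0 := div_mul_cancel₀ _ h0
    rw [← hr] at e0
    unfold Pt.smul
    ext
    · exact hr.symm
    · show c.t1 = c.t0 / Q.t0 * Q.t1
      have h2 := canc h0 (k := 11) (m := 1) rfl e0 (x := c.t1) (X := Q.t1) (by rw [hr]; exact e01)
      rw [pow_one] at h2; exact h2
    · exact canc h0 (k := 8) (m := 4) rfl e0 (by rw [hr]; exact e02)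
    · exact canc h0 (k := 6) (m := 6) rfl e0 (by rw [hr]; exact e03)

/-- one point -/
private theorem forms_one [IsAlgClosed K] (ha : a.IsHomogeneous 8) (hb : b.IsHomogeneous 12) {P c : Pt K}
    (hP : OnW a b P) (hc : OnW a b c) (hne : ¬ Prp P c) : ∃ A ∈ LinearMap.ker (fl P), fl c A ≠ 0 := by
  classical
  by_contra! hcon
  apply hne
  obtain ⟨j, hj, hjP⟩ := exists_mv hP.1
  obtain ⟨k, hk, hkc⟩ := exists_mv hc.1
  have hall : ∀ i ∈ mon, mv i c = mv j c / mv j P * mv i P := by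
    intro i hi
    have h1 : fl P (mv j P • Pi.single i 1 - mv i P • Pi.single j 1) = 0 := by
      rw [map_sub, map_smul, map_smul, fl_single P hi, fl_single P hj, smul_eq_mul, smul_eq_mul]
      ring
    have h2 := hcon _ (LinearMap.mem_ker.2 h1)
    rw [map_sub, map_smul, map_smul, fl_single c hi, fl_single c hj, smul_eq_mul, smul_eq_mul] at h2
    field_simp
    linear_combination h2
  have hl : mv j c / mv j P ≠ 0 := by
    intro h
    have := hall k hk
    rw [h, zero_mul] at this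
    exact hkc this
  exact prp_of_mv ha hb hP hc hl hall

theorem forms [IsAlgClosed K] (ha : a.IsHomogeneous 8) (hb : b.IsHomogeneous 12) {P : Pt K} (hP : OnW a b P)
    (C : Finset (Pt K)) (hC : ∀ c ∈ C, OnW a b c) (hne : ∀ c ∈ C, ¬ Prp P c) :
    ∃ A B : ℕ × ℕ × ℕ × ℕ → K, fm A P = 0 ∧ fm B P ≠ 0 ∧ ∀ c ∈ C, fm A c ≠ 0 ∧ fm B c ≠ 0 := by
  classical
  have : Infinite K := IsAlgClosed.instInfinite
  obtain ⟨A, hA, hA'⟩ := Module.Dual.exists_forall_mem_ne_zero_of_forall_exists (LinearMap.ker (fl P))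
    (fun c : C => fl (c : Pt K)) (fun c => forms_one ha hb hP (hC c c.2) (hne c c.2))
  have h2 : ∀ c : Option C, ∃ B : ℕ × ℕ × ℕ × ℕ → K, (fl (c.elim P (fun c => (c : Pt K)))) B ≠ 0 := by
    intro c
    have h3 : (c.elim P (fun c => (c : Pt K))).NZ := by
      cases c with
      | none => exact hP.1
      | some c => exact (hC c c.2).1
    obtain ⟨k, hk, hkc⟩ := exists_mv h3
    exact ⟨Pi.single k 1, by rw [fl_single _ hk]; exact hkc⟩
  obtain ⟨B, hB⟩ := Module.Dual.exists_forall_ne_zero_of_forall_exists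
    (fun c : Option C => fl (c.elim P (fun c => (c : Pt K)))) h2
  exact ⟨A, B, LinearMap.mem_ker.1 hA, hB none, fun c hc => ⟨hA' ⟨c, hc⟩, hB (some ⟨c, hc⟩)⟩⟩

end H25.V1
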