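import Pool.Agent.H25.V1.Conj
import Pool.Agent.H25.V1.Forms


/-! # V1.Sep : a point over `f = 0` is a specialisation of a conjugate over `tt = 0` (about 200 lines)

The set of the `s.map τ`, `τ f = tt`, is finite: each coordinate is a root of a fixed nonzero polynomial (`conj`).  For each `s' = s.map τ` choose a specialisation `c(s')` at `π0` (`Sp_exists`; `OnW` by
`Sp_onW`, `OnW_map` below).  If some `c(s')` is proportional to `P` we are done (`Sp_smul`).  Otherwise take `A`, `B` from `forms` and `β = fm A s / fm B s` (`fm B s ≠ 0` because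
`c^12 * fm B s` reduces to `fm B P ≠ 0`).  `β` reduces to `0` at `π1`, and for all `τ` with `τ f = tt` the element `τ β` reduces at `π0` to `fm A c / fm B c ≠ 0` (`fm_rd`, `fm_map`).
Take `G` from `conj` for `β`, `Q = G(tt, ·)`.  At `π1`: `G(0, 0) = 0` (reduce `G(f, β) = 0`).  `Q = C lc * ∏ (X - ρ)` over its roots (`Om K` is algebraically closed), all `ρ` are `τ β`, so integral at `π0`
and with nonzero residue.  `Q` has integral coefficients and reduces to `G(0, ·) ≠ 0`: some coefficient is a unit, and it is `lc` times an integral element, so `lc` is a unit (if `lc` were a nonunit or not integral: consider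
`lc⁻¹ * Q`, which has integral coefficients and constant coefficient a unit); hence `Q.coeff 0 = ± lc * ∏ ρ` is a unit, but it reduces to `G(0, 0) = 0`. -/

namespace H25.V1

open H68.BB H25.KP Polynomial

variable {K : Type} [Field K] {a b : MvPolynomial (Fin 2) K}

private theorem map_ev (τ : Om K →ₐ[K] Om K) (q : MvPolynomial (Fin 2) K) (x y : Om K) :
    ev q (τ x) (τ y) = τ (ev q x y) := by
  unfold ev
  induction q using MvPolynomial.induction_on with
  | C c =>
    rw [MvPolynomial.aeval_C, MvPolynomial.aeval_C]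
    exact (τ.commutes c).symm
  | add p q hp hq => rw [map_add, map_add, map_add, hp, hq]
  | mul_X p i hp =>
    rw [map_mul, map_mul, map_mul, MvPolynomial.aeval_X, MvPolynomial.aeval_X, hp]
    congr 1
    fin_cases i
    · rfl
    · rfl

theorem OnW_map {s : Pt (Om K)} (hs : OnW a b s) (τ : Om K →ₐ[K] Om K) : OnW a b (s.map τ) := by
  have hi : ∀ x : Om K, x ≠ 0 → τ x ≠ 0 := fun x hx h => hx ((map_eq_zero τ).1 h)
  refine ⟨?_, ?_⟩
  · rcases hs.1 with h | h | h | h
    · exact Or.inl (hi _ h)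
    · exact Or.inr (Or.inl (hi _ h))
    · exact Or.inr (Or.inr (Or.inl (hi _ h)))
    · exact Or.inr (Or.inr (Or.inr (hi _ h)))
  · change (τ s.y) ^ 2 = (τ s.x) ^ 3 + ev a (τ s.t0) (τ s.t1) * τ s.x + ev b (τ s.t0) (τ s.t1)
    rw [map_ev, map_ev, ← map_pow, ← map_pow, ← map_mul, ← map_add, ← map_add, hs.2]

private theorem fin_one [IsAlgClosed K] {f : Om K} (hf : ∀ c : K, f ≠ algebraMap K (Om K) c) (β : Om K) :
    {r : Om K | ∃ τ : Om K →ₐ[K] Om K, τ f = tt K ∧ r = τ β}.Finite := by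
  obtain ⟨G, -, h1, -, -, h2⟩ := conj hf β
  refine (Polynomial.finite_setOfPred_isRoot h1).subset ?_
  rintro r ⟨τ, h3, rfl⟩
  exact h2 τ h3

/-- the conjugates of `s` are finite in number -/
theorem fin_conj [IsAlgClosed K] {f : Om K} (hf : ∀ c : K, f ≠ algebraMap K (Om K) c) (s : Pt (Om K)) :
    {s' : Pt (Om K) | ∃ τ : Om K →ₐ[K] Om K, τ f = tt K ∧ s' = s.map τ}.Finite := by
  have h := (((fin_one hf s.t0).prod (fin_one hf s.t1)).prod ((fin_one hf s.x).prod (fin_one hf s.y))).image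
    (fun z : (Om K × Om K) × (Om K × Om K) => (⟨z.1.1, z.1.2, z.2.1, z.2.2⟩ : Pt (Om K)))
  refine h.subset ?_
  rintro s' ⟨τ, h1, rfl⟩
  exact ⟨((τ s.t0, τ s.t1), (τ s.x, τ s.y)), ⟨⟨⟨τ, h1, rfl⟩, ⟨τ, h1, rfl⟩⟩, ⟨⟨τ, h1, rfl⟩, ⟨τ, h1, rfl⟩⟩⟩, rfl⟩

/-- reduction of the value of a polynomial in one variable -/
private theorem rd_aeval {π : Place K (Om K)} {f : Om K} (hf : Rd π.V π.φ f 0) (p : K[X]) :
    Rd π.V π.φ (aeval f p) (p.eval 0) := by
  induction p using Polynomial.induction_on with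
  | C c => rw [aeval_C, eval_C]; exact π.const c
  | add p q hp hq => rw [map_add, eval_add]; exact hp.add hq
  | monomial n c h =>
    rw [pow_succ, ← mul_assoc, map_mul, aeval_X, eval_mul, eval_X]
    exact h.mul hf

/-- reduction of the value of a polynomial in two variables -/
private theorem rd_eval₂ {π : Place K (Om K)} {f β : Om K} {b' : K} (hf : Rd π.V π.φ f 0) (hβ : Rd π.V π.φ β b')
    (G : K[X][X]) : Rd π.V π.φ (G.eval₂ (aeval f : K[X] →ₐ[K] Om K).toRingHom β)
      (G.eval₂ (evalRingHom (0 : K)) b') := by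
  induction G using Polynomial.induction_on with
  | C c => rw [eval₂_C, eval₂_C]; exact rd_aeval hf c
  | add p q hp hq => rw [eval₂_add, eval₂_add]; exact hp.add hq
  | monomial n c h =>
    rw [pow_succ, ← mul_assoc, eval₂_mul_X, eval₂_mul_X]
    exact h.mul hβ

/-- a monic polynomial with all roots units reduces to one with nonzero constant coefficient -/
private theorem rd_prod {π : Place K (Om K)} (S : Multiset (Om K)) (h : ∀ ρ ∈ S, ∃ r : K, r ≠ 0 ∧ Rd π.V π.φ ρ r) :
    ∃ R : K[X], (∀ i, Rd π.V π.φ (((S.map (fun ρ => X - C ρ)).prod).coeff i) (R.coeff i)) ∧ R.coeff 0 ≠ 0 := by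
  induction S using Multiset.induction_on with
  | empty =>
    refine ⟨1, fun i => ?_, ?_⟩
    · rw [Multiset.map_zero, Multiset.prod_zero, coeff_one, coeff_one]
      split_ifs
      · exact Rd.one
      · exact Rd.zero
    · rw [coeff_one_zero]; exact one_ne_zero
  | cons ρ S ih =>
    obtain ⟨R, h1, h2⟩ := ih fun ρ' h' => h ρ' (Multiset.mem_cons_of_mem h')
    obtain ⟨r, hr, hρ⟩ := h ρ (Multiset.mem_cons_self ρ S)
    refine ⟨(X - C r) * R, fun i => ?_, ?_⟩
    · rw [Multiset.map_cons, Multiset.prod_cons]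
      cases i with
      | zero =>
        rw [sub_mul, coeff_sub, coeff_C_mul, sub_mul, coeff_sub, coeff_C_mul, mul_coeff_zero, coeff_X_zero, zero_mul,
          mul_coeff_zero, coeff_X_zero, zero_mul]
        exact Rd.zero.sub (hρ.mul (h1 0))
      | succ i =>
        rw [sub_mul, coeff_sub, coeff_C_mul, sub_mul, coeff_sub, coeff_C_mul, coeff_X_mul, coeff_X_mul]
        exact (h1 i).sub (hρ.mul (h1 (i + 1)))
    · rw [mul_coeff_zero, coeff_sub, coeff_X_zero, coeff_C_zero, zero_sub]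
      exact mul_ne_zero (neg_ne_zero.2 hr) h2

private theorem smul_inv {P : Pt K} {c : K} (hc : c ≠ 0) : (P.smul c).smul c⁻¹ = P := by
  ext
  · change c⁻¹ * (c * P.t0) = P.t0
    field_simp
  · change c⁻¹ * (c * P.t1) = P.t1
    field_simp
  · change c⁻¹ ^ 4 * (c ^ 4 * P.x) = P.x
    field_simp
  · change c⁻¹ ^ 6 * (c ^ 6 * P.y) = P.y
    field_simp

/-- the quotient of two forms -/
private theorem rd_quot {π : Place K (Om K)} {s : Pt (Om K)} {p : Pt K} (h : Sp π s p) (A B : ℕ × ℕ × ℕ × ℕ → K)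
    (hB : fm B p ≠ 0) : Rd π.V π.φ (fm A s / fm B s) (fm A p / fm B p) := by
  have hl := π.isLocal
  obtain ⟨-, c, hc, h0, h1, h2, h3⟩ := h
  have e1 := fm_rd A h0 h1 h2 h3
  have e2 := fm_rd B h0 h1 h2 h3
  have e3 : fm A s / fm B s = (c ^ 12 * fm A s) / (c ^ 12 * fm B s) := by
    rw [mul_div_mul_left _ _ (pow_ne_zero 12 hc)]
  rw [e3]
  exact e1.div e2 hB

theorem sep [IsAlgClosed K] (ha : a.IsHomogeneous 8) (hb : b.IsHomogeneous 12) {f : Om K}
    (hf : ∀ c : K, f ≠ algebraMap K (Om K) c) {s : Pt (Om K)} (hs : OnW a b s) {P : Pt K} {π1 : Place K (Om K)}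
    (h1 : Sp π1 s P) (hf1 : Rd π1.V π1.φ f 0) {π0 : Place K (Om K)} (h0 : Rd π0.V π0.φ (tt K) 0) :
    ∃ τ : Om K →ₐ[K] Om K, τ f = tt K ∧ Sp π0 (s.map τ) P := by
  classical
  have hex : ∀ s' : Pt (Om K), ∃ p : Pt K, OnW a b s' → Sp π0 s' p := by
    intro s'
    by_cases h : OnW a b s'
    · obtain ⟨p, hp⟩ := Sp_exists π0 h.1
      exact ⟨p, fun _ => hp⟩
    · exact ⟨P, fun h' => absurd h' h⟩
  choose cc hcc using hex
  by_contra hno
  have hfin := fin_conj hf s
  have hP : OnW a b P := Sp_onW ha hb hs h1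
  obtain ⟨A, B, hA, hB, hC⟩ := forms ha hb hP (hfin.toFinset.image cc) (by
    intro c hc
    obtain ⟨s', hs', rfl⟩ := Finset.mem_image.1 hc
    obtain ⟨τ, hτ, rfl⟩ := hfin.mem_toFinset.1 hs'
    exact Sp_onW ha hb (OnW_map hs τ) (hcc _ (OnW_map hs τ))) (by
    intro c hc hprp
    obtain ⟨s', hs', rfl⟩ := Finset.mem_image.1 hc
    obtain ⟨τ, hτ, rfl⟩ := hfin.mem_toFinset.1 hs'
    obtain ⟨l, hl, he⟩ := hprp
    have h2 := hcc _ (OnW_map hs τ)
    rw [he] at h2
    have h3 := Sp_smul h2 (inv_ne_zero hl)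
    rw [smul_inv hl] at h3
    exact hno ⟨τ, hτ, h3⟩)
  set β : Om K := fm A s / fm B s with hβ
  have hβ1 : Rd π1.V π1.φ β 0 := by
    have h2 := rd_quot h1 A B hB
    rw [hA, zero_div] at h2
    exact h2
  have hβ0 : ∀ τ : Om K →ₐ[K] Om K, τ f = tt K → ∃ r : K, r ≠ 0 ∧ Rd π0.V π0.φ (τ β) r := by
    intro τ hτ
    have h2 := hcc _ (OnW_map hs τ)
    have h3 := hC (cc (s.map τ)) (Finset.mem_image_of_mem _ (hfin.mem_toFinset.2 ⟨τ, hτ, rfl⟩))
    have h4 := rd_quot h2 A B h3.2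
    rw [fm_map, fm_map, ← map_div₀] at h4
    exact ⟨_, div_ne_zero h3.1 h3.2, h4⟩
  obtain ⟨G, hG0, hGt, hGf, hroot, -⟩ := conj hf β
  -- the constant coefficient of the reduction vanishes
  have hG1 : (G.coeff 0).eval 0 = 0 := by
    have h2 := rd_eval₂ hf1 hβ1 G
    rw [hGf] at h2
    have h3 := Rd.zero.unique h2
    rw [eval₂_at_zero] at h3
    exact h3.symm
  set Q : (Om K)[X] := G.map (aeval (tt K) : K[X] →ₐ[K] Om K).toRingHom with hQ
  have hsp : Q = C Q.leadingCoeff * (Q.roots.map (fun ρ => X - C ρ)).prod :=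
    (IsAlgClosed.splits Q).eq_prod_roots
  obtain ⟨R, hR, hR0⟩ := rd_prod (π := π0) Q.roots (by
    intro ρ hρ
    obtain ⟨τ, hτ, rfl⟩ := hroot ρ (isRoot_of_mem_roots hρ)
    exact hβ0 τ hτ)
  have hQc : ∀ i, Rd π0.V π0.φ (Q.coeff i) ((G.coeff i).eval 0) := by
    intro i
    rw [hQ, coeff_map]
    exact rd_aeval h0 (G.coeff i)
  have hlc := hQc Q.natDegree
  rw [coeff_natDegree] at hlc
  set l0 : K := (G.coeff Q.natDegree).eval 0 with hl0
  have hmul : ∀ i, (G.coeff i).eval 0 = l0 * R.coeff i := by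
    intro i
    have h2 := hlc.mul (hR i)
    rw [← coeff_C_mul, ← hsp] at h2
    exact (hQc i).unique h2
  have hl : l0 ≠ 0 := by
    intro h
    apply hG0
    ext i
    rw [coeff_map, coeff_zero]
    change (G.coeff i).eval 0 = 0
    rw [hmul i, h, zero_mul]
  have h5 := hmul 0
  rw [hG1] at h5
  exact mul_ne_zero hl hR0 h5.symm

end H25.V1
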