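import Pool.Agent.H25.V1.One


/-! # V1.SpU : specialisations are unique up to scalars; normalisation (about 150 lines)

`Sp_scale`: replace the scalar.  `Sp_unique`: scalars `c`, `d` for `P`, `Q`; `l = d / c` is in `V` or its inverse is (`ValuationSubring.mem_or_inv_mem`); if `l ∈ V` reduces to `λ` then
`Q = (λ P.t0, λ P.t1, λ^4 P.x, λ^6 P.y)` (`Rd.unique`), `λ ≠ 0` since `Q` is `NZ`.  `Prp` is symmetric.
`nrm`: the scalar `c` of `Sp` reduces to `lin u0 u1 P ≠ 0` (`lin (c s) = c`), so it is a unit with residue `l = lin u0 u1 P` and `s = c⁻¹ (c s)` reduces to `P.smul l⁻¹`.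
`lin_inf`: `c * lin v s` reduces to `lin v P`, `c` reduces to `lin u P`; if this is not zero then `lin v s = (c * lin v s) / c ∈ V`. -/

namespace H25.V1

open H68.BB H25.KP

variable {K : Type} [Field K] {π : Place K (Om K)}

private theorem Sp_scale_aux {s : Pt (Om K)} {p : Pt K} {c : Om K} (hc : c ≠ 0) (h : Sp π s p) :
    Sp π (s.smul c) p := by
  obtain ⟨hp, d, hd, h0, h1, hx, hy⟩ := h
  refine ⟨hp, d * c⁻¹, mul_ne_zero hd (inv_ne_zero hc), ?_, ?_, ?_, ?_⟩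
  · have e : d * c⁻¹ * (s.smul c).t0 = d * s.t0 := by
      show d * c⁻¹ * (c * s.t0) = d * s.t0
      field_simp
    rw [e]; exact h0
  · have e : d * c⁻¹ * (s.smul c).t1 = d * s.t1 := by
      show d * c⁻¹ * (c * s.t1) = d * s.t1
      field_simp
    rw [e]; exact h1
  · have e : (d * c⁻¹) ^ 4 * (s.smul c).x = d ^ 4 * s.x := by
      show (d * c⁻¹) ^ 4 * (c ^ 4 * s.x) = d ^ 4 * s.x
      field_simp
    rw [e]; exact hx
  · have e : (d * c⁻¹) ^ 6 * (s.smul c).y = d ^ 6 * s.y := by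
      show (d * c⁻¹) ^ 6 * (c ^ 6 * s.y) = d ^ 6 * s.y
      field_simp
    rw [e]; exact hy

private theorem smul_smul_inv {F : Type} [Field F] {c : F} (hc : c ≠ 0) (s : Pt F) :
    (s.smul c).smul c⁻¹ = s := by
  ext
  · show c⁻¹ * (c * s.t0) = s.t0
    field_simp
  · show c⁻¹ * (c * s.t1) = s.t1
    field_simp
  · show c⁻¹ ^ 4 * (c ^ 4 * s.x) = s.x
    field_simp
  · show c⁻¹ ^ 6 * (c ^ 6 * s.y) = s.y
    field_simp

theorem Sp_scale {s : Pt (Om K)} {p : Pt K} {c : Om K} (hc : c ≠ 0) : Sp π (s.smul c) p ↔ Sp π s p := by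
  refine ⟨fun h => ?_, Sp_scale_aux hc⟩
  have h1 := Sp_scale_aux (inv_ne_zero hc) h
  rw [smul_smul_inv hc] at h1
  exact h1

theorem Prp_symm {P Q : Pt K} (h : Prp P Q) : Prp Q P := by
  obtain ⟨c, hc, rfl⟩ := h
  exact ⟨c⁻¹, inv_ne_zero hc, (smul_smul_inv hc P).symm⟩

private theorem uniq_aux {s : Pt (Om K)} {P Q : Pt K} (hQ : Q.NZ) {c d : Om K} (hc : c ≠ 0)
    (h0 : Rd π.V π.φ (c * s.t0) P.t0) (h1 : Rd π.V π.φ (c * s.t1) P.t1)
    (h2 : Rd π.V π.φ (c ^ 4 * s.x) P.x) (h3 : Rd π.V π.φ (c ^ 6 * s.y) P.y)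
    (k0 : Rd π.V π.φ (d * s.t0) Q.t0) (k1 : Rd π.V π.φ (d * s.t1) Q.t1)
    (k2 : Rd π.V π.φ (d ^ 4 * s.x) Q.x) (k3 : Rd π.V π.φ (d ^ 6 * s.y) Q.y)
    (hl : d * c⁻¹ ∈ π.V) : Prp P Q := by
  obtain ⟨l, hl⟩ : ∃ l : K, Rd π.V π.φ (d * c⁻¹) l := ⟨_, Rd.of_mem hl⟩
  have e0 : Q.t0 = l * P.t0 := by
    refine k0.unique ?_
    have e : d * s.t0 = d * c⁻¹ * (c * s.t0) := by field_simp
    rw [e]; exact hl.mul h0
  have e1 : Q.t1 = l * P.t1 := by
    refine k1.unique ?_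
    have e : d * s.t1 = d * c⁻¹ * (c * s.t1) := by field_simp
    rw [e]; exact hl.mul h1
  have e2 : Q.x = l ^ 4 * P.x := by
    refine k2.unique ?_
    have e : d ^ 4 * s.x = (d * c⁻¹) ^ 4 * (c ^ 4 * s.x) := by field_simp
    rw [e]; exact (hl.pow 4).mul h2
  have e3 : Q.y = l ^ 6 * P.y := by
    refine k3.unique ?_
    have e : d ^ 6 * s.y = (d * c⁻¹) ^ 6 * (c ^ 6 * s.y) := by field_simp
    rw [e]; exact (hl.pow 6).mul h3
  refine ⟨l, ?_, ?_⟩
  · rintro rfl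
    rcases hQ with h | h | h | h
    · exact h (by rw [e0, zero_mul])
    · exact h (by rw [e1, zero_mul])
    · exact h (by rw [e2, zero_pow (by norm_num), zero_mul])
    · exact h (by rw [e3, zero_pow (by norm_num), zero_mul])
  · ext
    · exact e0
    · exact e1
    · exact e2
    · exact e3

theorem Sp_unique {s : Pt (Om K)} {P Q : Pt K} (h : Sp π s P) (h' : Sp π s Q) : Prp P Q := by
  obtain ⟨hP, c, hc, h0, h1, h2, h3⟩ := h
  obtain ⟨hQ, d, hd, k0, k1, k2, k3⟩ := h'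
  rcases π.V.mem_or_inv_mem (d * c⁻¹) with hl | hl
  · exact uniq_aux hQ hc h0 h1 h2 h3 k0 k1 k2 k3 hl
  · have e : (d * c⁻¹)⁻¹ = c * d⁻¹ := by rw [mul_inv, inv_inv, mul_comm]
    rw [e] at hl
    exact Prp_symm (uniq_aux hP hd k0 k1 k2 k3 h0 h1 h2 h3 hl)

theorem Prp_refl (P : Pt K) : Prp P P := by
  refine ⟨1, one_ne_zero, ?_⟩
  ext
  · show P.t0 = 1 * P.t0
    rw [one_mul]
  · show P.t1 = 1 * P.t1
    rw [one_mul]
  · show P.x = 1 ^ 4 * P.x
    rw [one_pow, one_mul]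
  · show P.y = 1 ^ 6 * P.y
    rw [one_pow, one_mul]

theorem lin_smul {F : Type} [Field F] [Algebra K F] (p q : K) (c : F) (P : Pt F) :
    lin p q (P.smul c) = c * lin p q P := by
  show algebraMap K F q * (c * P.t0) - algebraMap K F p * (c * P.t1) =
    c * (algebraMap K F q * P.t0 - algebraMap K F p * P.t1)
  ring

/-- the linear forms of a specialisation -/
theorem lin_rd {s : Pt (Om K)} {P : Pt K} {c : Om K} (h0 : Rd π.V π.φ (c * s.t0) P.t0) (h1 : Rd π.V π.φ (c * s.t1) P.t1)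
    (p q : K) : Rd π.V π.φ (c * lin p q s) (lin p q P) := by
  have hq : Rd π.V π.φ (algebraMap K (Om K) q) q := π.const q
  have hp : Rd π.V π.φ (algebraMap K (Om K) p) p := π.const p
  have h := (hq.mul h0).sub (hp.mul h1)
  have e : c * lin p q s = algebraMap K (Om K) q * (c * s.t0) - algebraMap K (Om K) p * (c * s.t1) := by
    show c * (algebraMap K (Om K) q * s.t0 - algebraMap K (Om K) p * s.t1) = _
    ring
  rw [e]
  exact h

theorem nrm {u0 u1 : K} {s : Pt (Om K)} (hs : lin u0 u1 s = 1) {P : Pt K} (h : Sp π s P) (hP : lin u0 u1 P ≠ 0) :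
    Rd π.V π.φ s.t0 (P.smul (lin u0 u1 P)⁻¹).t0 ∧ Rd π.V π.φ s.t1 (P.smul (lin u0 u1 P)⁻¹).t1 ∧
      Rd π.V π.φ s.x (P.smul (lin u0 u1 P)⁻¹).x ∧ Rd π.V π.φ s.y (P.smul (lin u0 u1 P)⁻¹).y := by
  have := Place.isLocal π
  obtain ⟨-, c, hc, h0, h1, h2, h3⟩ := h
  have hl := lin_rd h0 h1 u0 u1
  rw [hs, mul_one] at hl
  have hi := hl.inv hP
  refine ⟨?_, ?_, ?_, ?_⟩
  · have e : s.t0 = c⁻¹ * (c * s.t0) := by field_simp
    rw [e]; exact hi.mul h0
  · have e : s.t1 = c⁻¹ * (c * s.t1) := by field_simp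
    rw [e]; exact hi.mul h1
  · have e : s.x = c⁻¹ ^ 4 * (c ^ 4 * s.x) := by field_simp
    rw [e]; exact (hi.pow 4).mul h2
  · have e : s.y = c⁻¹ ^ 6 * (c ^ 6 * s.y) := by field_simp
    rw [e]; exact (hi.pow 6).mul h3

theorem lin_inf {u0 u1 v0 v1 : K} {s : Pt (Om K)} (hs : lin u0 u1 s = 1) (hv : lin v0 v1 s ∉ π.V) {P : Pt K}
    (h : Sp π s P) : lin u0 u1 P = 0 := by
  have := Place.isLocal π
  obtain ⟨-, c, hc, h0, h1, h2, h3⟩ := h
  by_contra hP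
  have hl := lin_rd h0 h1 u0 u1
  rw [hs, mul_one] at hl
  have hi := (hl.inv hP).mul (lin_rd h0 h1 v0 v1)
  have e : c⁻¹ * (c * lin v0 v1 s) = lin v0 v1 s := by field_simp
  rw [e] at hi
  exact hv hi.mem

/-- pull back of a place along an endomorphism -/
theorem comap (π : Place K (Om K)) (τ : Om K →ₐ[K] Om K) : ∃ π' : Place K (Om K), ∀ x : Om K, x ∈ π'.V ↔ τ x ∈ π.V := by
  let e : Om K →+* Om K := (τ : Om K →+* Om K)
  have heC : ∀ c : K, e (algebraMap K (Om K) c) = algebraMap K (Om K) c := fun c => τ.commutes c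
  let r : (π.V.comap e) →+* π.V := (e.comp (π.V.comap e).subtype).codRestrict π.V.toSubring
    (fun x => x.2)
  refine ⟨⟨π.V.comap e, π.φ.comp r, fun c => ?_⟩, fun x => Iff.rfl⟩
  obtain ⟨h1, h2⟩ := π.const c
  have h3 : algebraMap K (Om K) c ∈ π.V.comap e := by
    rw [ValuationSubring.mem_comap, heC]
    exact h1
  refine ⟨h3, ?_⟩
  change π.φ (r ⟨algebraMap K (Om K) c, h3⟩) = c
  have h4 : r ⟨algebraMap K (Om K) c, h3⟩ = ⟨algebraMap K (Om K) c, h1⟩ :=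
    Subtype.ext (heC c)
  rw [h4, h2]

end H25.V1
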