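import Pool.Agent.H25.V1.Fact1
import Pool.Agent.H25.V1.SpU
import Pool.Agent.H25.V1.Sep
import Pool.Agent.H25.V1.Bas
import Pool.Agent.H25.V1.Count
import Pool.Agent.H25.V1.Lina


/-! # V1.LemB : bounded residual divisors on a curve (about 300 lines)

`s` normalised by `lin u0 u1 s = 1`, `U = lin v0 v1 s` not constant.  Let `w` be a basis of an order over `K[U]` with `n` elements and multiplication table of degree `≤ A`;
`g = n A`.  For `r` points of `F` outside the singular fibre `lin u0 u1 = 0` take `D = r / n` and a function `f = ∑ c_k(U) w_k ≠ 0`, `deg c_k ≤ D`, which vanishes at places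
of the points; the conjugates `s.map τ`, `τ f = tt`, are at most `n (D + A) ≤ r + g` in number, specialise at `tt = 0` to a set of points which contains `F` and at
`tt = ∞` to points with `aa = 0`. -/

namespace H25.V1

open H68.BB H25.KP Polynomial

section lemmas

variable {K : Type} [Field K] {π : Place K (Om K)}

theorem rd_aeval {U : Om K} {u : K} (h : Rd π.V π.φ U u) (p : K[X]) : Rd π.V π.φ (aeval U p) (p.eval u) := by
  induction p using Polynomial.induction_on' with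
  | add p q hp hq => rw [map_add, eval_add]; exact hp.add hq
  | monomial n c =>
    rw [aeval_monomial, eval_monomial]
    exact (rd_cst (π := π) c).mul (h.pow n)

theorem mem_aeval {U : Om K} (h : U ∈ π.V) (p : K[X]) : aeval U p ∈ π.V :=
  (rd_aeval (Rd.of_mem (φ := π.φ) h) p).mem

theorem rd_sum {ι : Type} (I : Finset ι) {f : ι → Om K} {g : ι → K} (h : ∀ i ∈ I, Rd π.V π.φ (f i) (g i)) :
    Rd π.V π.φ (∑ i ∈ I, f i) (∑ i ∈ I, g i) := by
  classical
  induction I using Finset.induction_on with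
  | empty => rw [Finset.sum_empty, Finset.sum_empty]; exact Rd.zero
  | insert i I hi ih =>
    rw [Finset.sum_insert hi, Finset.sum_insert hi]
    exact (h i (Finset.mem_insert_self _ _)).add (ih fun j hj => h j (Finset.mem_insert_of_mem hj))

theorem lin_map (τ : Om K →ₐ[K] Om K) (p q : K) (s : Pt (Om K)) : lin p q (s.map τ) = τ (lin p q s) := by
  unfold lin KP.Pt.map
  rw [map_sub, map_mul, map_mul, AlgHom.commutes, AlgHom.commutes]

/-- the coordinates `t0`, `t1` in terms of the two linear forms -/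
theorem lin_t0 {F : Type} [Field F] [Algebra K F] (u0 u1 v0 v1 : K) (s : Pt F) :
    algebraMap K F (u1 * v0 - u0 * v1) * s.t0 =
      algebraMap K F v0 * lin u0 u1 s - algebraMap K F u0 * lin v0 v1 s := by
  unfold lin
  simp only [map_sub, map_mul]
  ring

theorem lin_t1 {F : Type} [Field F] [Algebra K F] (u0 u1 v0 v1 : K) (s : Pt F) :
    algebraMap K F (u1 * v0 - u0 * v1) * s.t1 =
      algebraMap K F v1 * lin u0 u1 s - algebraMap K F u1 * lin v0 v1 s := by
  unfold lin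
  simp only [map_sub, map_mul]
  ring

theorem Pt_map_inj {τ : Om K → Om K} (h : Function.Injective τ) : Function.Injective (KP.Pt.map τ) := by
  intro P Q hPQ
  have h0 := congrArg KP.Pt.t0 hPQ
  have h1 := congrArg KP.Pt.t1 hPQ
  have h2 := congrArg KP.Pt.x hPQ
  have h3 := congrArg KP.Pt.y hPQ
  exact KP.Pt.ext (h h0) (h h1) (h h2) (h h3)

theorem rel_map_self {α β : Type} {r : α → β → Prop} (S : Multiset α) (c : α → β) (h : ∀ s ∈ S, r s (c s)) :
    Multiset.Rel r S (S.map c) := by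
  rw [Multiset.rel_map_right]
  exact Multiset.rel_refl_of_refl_on h

end lemmas

variable {K : Type} [Field K] [IsAlgClosed K] [NZ6 K] {a b : MvPolynomial (Fin 2) K}

/-- the relation given by the conjugates of a point -/
theorem conj_rel {f : Om K} (hf : ∀ c : K, f ≠ algebraMap K (Om K) c) {s : Pt (Om K)} (hs : OnW a b s)
    (S : Finset (Pt (Om K))) (hS : ∀ s', s' ∈ S ↔ ∃ τ : Om K →ₐ[K] Om K, τ f = tt K ∧ s' = s.map τ)
    {π π' : Place K (Om K)} {c c' : Pt (Om K) → Pt K} (hc : ∀ s' ∈ S, Sp π s' (c s'))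
    (hc' : ∀ s' ∈ S, Sp π' s' (c' s')) :
    (∑ s' ∈ S, aa (c s')) - ∑ s' ∈ S, aa (c' s') ∈ RatEq1 a b := by
  have key : (∑ s' ∈ S, aa (c s')) - ∑ s' ∈ S, aa (c' s') =
      ((S.val.map c).map (fun p => (Finsupp.single p 1 : Cyc1 K))).sum -
      ((S.val.map c').map (fun p => (Finsupp.single p 1 : Cyc1 K))).sum := by
    rw [Multiset.map_map, Multiset.map_map]
    have h1 : ∀ d : Pt (Om K) → Pt K, ∑ s' ∈ S, aa (d s') =
        (Multiset.map ((fun p => (Finsupp.single p 1 : Cyc1 K)) ∘ d) S.val).sum -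
          ∑ s' ∈ S, (Finsupp.single (o K) 1 : Cyc1 K) := by
      intro d
      unfold aa
      rw [Finset.sum_sub_distrib]
      rfl
    rw [h1 c, h1 c']
    abel
  rw [key]
  apply AddSubgroup.subset_closure
  refine ⟨S.val, π, π', S.val.map c, S.val.map c', ?_, ?_, rel_map_self _ _ hc, rel_map_self _ _ hc', rfl⟩
  · intro s' hs'
    obtain ⟨τ, -, rfl⟩ := (hS s').1 hs'
    exact OnW_map hs τ
  · intro σ
    have hinj : Function.Injective (KP.Pt.map (σ : Om K → Om K)) := Pt_map_inj σ.injective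
    have h1 : S.map ⟨_, hinj⟩ = S := by
      apply Finset.eq_of_subset_of_card_le
      · intro x hx
        obtain ⟨s', hs', rfl⟩ := Finset.mem_map.1 hx
        obtain ⟨τ, hτ, rfl⟩ := (hS s').1 hs'
        rw [hS]
        refine ⟨((σ.restrictScalars K : Om K ≃ₐ[K] Om K) : Om K →ₐ[K] Om K).comp τ, ?_, rfl⟩
        show σ (τ f) = tt K
        rw [hτ]
        exact sigma_tt σ
      · rw [Finset.card_map]
    exact congrArg Finset.val h1

/-- the case of points outside the singular fibre -/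
theorem lemB_core (ha : a.IsHomogeneous 8) (hb : b.IsHomogeneous 12)
    {u0 u1 v0 v1 : K} (huv : u0 * v1 ≠ u1 * v0) (hu : ev (disc a b) u0 u1 = 0)
    {s : Pt (Om K)} (hs : OnW a b s) (hs1 : lin u0 u1 s = 1) (hs2 : ∀ c : K, lin v0 v1 s ≠ algebraMap K (Om K) c) :
    ∃ g : ℕ, ∀ F : Finset (Pt K), F.Nonempty → (∀ P ∈ F, ∃ π, Sp π s P) → (∀ P ∈ F, lin u0 u1 P ≠ 0) →
      (∀ P ∈ F, ∀ Q ∈ F, Prp P Q → P = Q) →
      ∃ R : Multiset (Pt K), Multiset.card R ≤ g ∧ (∀ P ∈ R, OnW a b P) ∧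
        (∑ P ∈ F, aa P) + (R.map aa).sum ∈ T1 a b := by
  classical
  obtain ⟨U, hU⟩ : ∃ U, U = lin v0 v1 s := ⟨_, rfl⟩
  have hU2 : ∀ c : K, U ≠ algebraMap K (Om K) c := by rw [hU]; exact hs2
  obtain ⟨n, w, hn, hint, hind, hmul, hone, hx⟩ := bas hU2 (![s.x, s.y] : Fin 2 → Om K)
  choose M hM using hmul
  obtain ⟨A, hA⟩ : ∃ A : ℕ, ∀ i j k, (M i j k).natDegree ≤ A := by
    refine ⟨∑ i, ∑ j, ∑ k, (M i j k).natDegree, fun i j k => ?_⟩
    calc (M i j k).natDegree ≤ ∑ k, (M i j k).natDegree :=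
          Finset.single_le_sum (f := fun k => (M i j k).natDegree) (fun _ _ => Nat.zero_le _) (Finset.mem_univ k)
      _ ≤ ∑ j, ∑ k, (M i j k).natDegree :=
          Finset.single_le_sum (f := fun j => ∑ k, (M i j k).natDegree) (fun _ _ => Nat.zero_le _) (Finset.mem_univ j)
      _ ≤ _ := Finset.single_le_sum (f := fun i => ∑ j, ∑ k, (M i j k).natDegree) (fun _ _ => Nat.zero_le _)
          (Finset.mem_univ i)
  have hUt := trans hU2
  have hδ : u1 * v0 - u0 * v1 ≠ 0 := fun h => huv (by linear_combination -h)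
  have hu0 : u0 ≠ 0 ∨ u1 ≠ 0 := by
    by_contra h
    push Not at h
    rw [h.1, h.2] at huv
    simp at huv
  have hne1 : Nonempty (Place K (Om K)) := ⟨(place_exists K (0 : K)).choose⟩
  have hne2 : Nonempty (KP.Pt K) := ⟨o K⟩
  have hne3 : Nonempty (KP.Pt (Om K)) := ⟨s⟩
  have hne4 : Nonempty (Om K →ₐ[K] Om K) := ⟨AlgHom.id K (Om K)⟩
  refine ⟨n * A, fun F hF hF1 hF2 hF3 => ?_⟩
  -- the places of the points of `F`
  choose! ρ hρ using hF1
  have hR1 : ∀ P ∈ F, Rd (ρ P).V (ρ P).φ U (lin v0 v1 (P.smul (lin u0 u1 P)⁻¹)) := by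
    intro P hP
    obtain ⟨h0, h1, -, -⟩ := nrm hs1 (hρ P hP) (hF2 P hP)
    rw [hU]
    have h2 := lin_rd (s := s) (P := P.smul (lin u0 u1 P)⁻¹) (c := 1) (by rw [one_mul]; exact h0)
      (by rw [one_mul]; exact h1) v0 v1
    rwa [one_mul] at h2
  have hR2 : ∀ P ∈ F, ∀ k, ∃ c : K, Rd (ρ P).V (ρ P).φ (w k) c := fun P hP k =>
    rd_of_mem (hint (ρ P) k (hR1 P hP).mem)
  choose! vv hvv using hR2
  -- the function `f`
  set r := F.card with hr
  obtain ⟨D, hD⟩ : ∃ D, D = r / n := ⟨_, rfl⟩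
  have hD1 : n * D ≤ r := by rw [hD]; exact Nat.mul_div_le r n
  have hD2 : r < n * (D + 1) := by rw [hD]; exact Nat.lt_mul_div_succ r hn
  obtain ⟨c, ⟨k0, hk0⟩, hc1, hc2⟩ := lina hD2
    (fun i => lin v0 v1 (((F.equivFin.symm i : F) : Pt K).smul (lin u0 u1 ((F.equivFin.symm i : F) : Pt K))⁻¹))
    (fun i k => vv ((F.equivFin.symm i : F) : Pt K) k)
  obtain ⟨f, hf⟩ : ∃ f, f = ∑ k, aeval U (c k) * w k := ⟨_, rfl⟩
  have hf0 : f ≠ 0 := by
    intro h0
    rw [hf] at h0
    exact hk0 (hind c h0 k0)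
  have hfF : ∀ P ∈ F, Rd (ρ P).V (ρ P).φ f 0 := by
    intro P hP
    have h1 := hc2 (F.equivFin ⟨P, hP⟩)
    rw [Equiv.symm_apply_apply] at h1
    rw [hf]
    have h2 : Rd (ρ P).V (ρ P).φ (∑ k, aeval U (c k) * w k)
        (∑ k, (c k).eval (lin v0 v1 (P.smul (lin u0 u1 P)⁻¹)) * vv P k) :=
      rd_sum _ fun k _ => (rd_aeval (hR1 P hP) (c k)).mul (hvv P hP k)
    rw [h1] at h2
    exact h2
  have hf2 : ∀ d : K, f ≠ algebraMap K (Om K) d := by
    intro d hd
    obtain ⟨P, hP⟩ := hF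
    have h1 : Rd (ρ P).V (ρ P).φ f d := by rw [hd]; exact (ρ P).const d
    have h2 := h1.unique (hfF P hP)
    rw [h2, map_zero] at hd
    exact hf0 hd
  -- the conjugates
  obtain ⟨S, hS⟩ : ∃ S : Finset (Pt (Om K)), ∀ s', s' ∈ S ↔ ∃ τ : Om K →ₐ[K] Om K, τ f = tt K ∧ s' = s.map τ :=
    ⟨(fin_conj hf2 s).toFinset, fun s' => Set.Finite.mem_toFinset _⟩
  have hScard : S.card ≤ n * (D + A) := by
    have h1 : ∀ s' ∈ S, ∃ τ : Om K →ₐ[K] Om K, τ f = tt K ∧ s' = s.map τ := fun s' hs' => (hS s').1 hs'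
    choose! τ hτ using h1
    have hinj : Set.InjOn τ S := by
      intro x hx y hy hxy
      rw [(hτ x hx).2, (hτ y hy).2, hxy]
    rw [← Finset.card_image_of_injOn hinj]
    refine count (u := U) (w := w) (c := c) (fun i j => ⟨M i j, hA i j, hM i j⟩) hone hc1 _ ?_ ?_
    · intro τ' hτ'
      obtain ⟨s', hs', rfl⟩ := Finset.mem_image.1 hτ'
      rw [← hf]
      exact (hτ s' hs').1
    · intro τ₁ hτ₁ τ₂ hτ₂ hne
      obtain ⟨s₁, hs₁, rfl⟩ := Finset.mem_image.1 hτ₁
      obtain ⟨s₂, hs₂, rfl⟩ := Finset.mem_image.1 hτ₂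
      by_contra hcon
      push Not at hcon
      apply hne
      have h2 : s₁ = s₂ := by
        rw [(hτ s₁ hs₁).2, (hτ s₂ hs₂).2]
        generalize τ s₁ = τ₁ at hcon
        generalize τ s₂ = τ₂ at hcon
        -- `U`
        have hUU : τ₁ U = τ₂ U := by
          obtain ⟨e, he⟩ := hone
          have h3 : U = ∑ k, aeval U (X * e k) * w k := by
            calc U = U * 1 := (mul_one U).symm
              _ = U * ∑ k, aeval U (e k) * w k := by rw [← he]
              _ = _ := by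
                rw [Finset.mul_sum]
                refine Finset.sum_congr rfl fun k _ => ?_
                rw [map_mul, aeval_X]; ring
          have h4 := hcon (fun k => X * e k)
          rw [← h3] at h4
          exact h4
        have h1' : lin u0 u1 (s.map τ₁) = lin u0 u1 (s.map τ₂) := by
          rw [lin_map, lin_map, hs1, map_one, map_one]
        have h2' : lin v0 v1 (s.map τ₁) = lin v0 v1 (s.map τ₂) := by
          rw [lin_map, lin_map, ← hU, hUU]
        have hδ' : algebraMap K (Om K) (u1 * v0 - u0 * v1) ≠ 0 :=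
          (map_ne_zero_iff _ (algebraMap K (Om K)).injective).2 hδ
        have hxx : ∀ i : Fin 2, τ₁ ((![s.x, s.y] : Fin 2 → Om K) i) = τ₂ ((![s.x, s.y] : Fin 2 → Om K) i) := by
          intro i
          obtain ⟨d, hd, e, he⟩ := hx i
          have h3 := hcon e
          rw [← he, map_mul, map_mul, ← aeval_algHom_apply, ← aeval_algHom_apply, ← hUU] at h3
          have h4 : aeval (τ₁ U) d ≠ 0 := by
            rw [aeval_algHom_apply]
            intro h5
            have h6 : aeval U d = 0 := (map_eq_zero_iff _ τ₁.toRingHom.injective).1 h5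
            exact hd ((transcendental_iff.1 hUt) d h6)
          exact mul_left_cancel₀ h4 h3
        have e0 := lin_t0 u0 u1 v0 v1 (s.map τ₁)
        have e0' := lin_t0 u0 u1 v0 v1 (s.map τ₂)
        have e1 := lin_t1 u0 u1 v0 v1 (s.map τ₁)
        have e1' := lin_t1 u0 u1 v0 v1 (s.map τ₂)
        rw [h1', h2', ← e0'] at e0
        rw [h1', h2', ← e1'] at e1
        exact KP.Pt.ext (mul_left_cancel₀ hδ' e0) (mul_left_cancel₀ hδ' e1) (hxx 0) (hxx 1)
      rw [h2]
  -- the two places of the projective line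
  obtain ⟨π0, hπ0⟩ : ∃ π0 : Place K (Om K), Rd π0.V π0.φ (tt K) 0 := place_exists K (0 : K)
  obtain ⟨π1, hπ1⟩ := place_inf K
  have hSon : ∀ s' ∈ S, OnW a b s' := by
    intro s' hs'
    obtain ⟨τ, -, rfl⟩ := (hS s').1 hs'
    exact OnW_map hs τ
  -- the conjugates which specialise to the points of `F`
  have hsep : ∀ P ∈ F, ∃ s', s' ∈ S ∧ Sp π0 s' P := by
    intro P hP
    obtain ⟨τ, h1, h2⟩ := sep ha hb hf2 hs (hρ P hP) (hfF P hP) hπ0
    exact ⟨s.map τ, (hS _).2 ⟨τ, h1, rfl⟩, h2⟩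
  choose! q hq1 hq2 using hsep
  have hqinj : Set.InjOn q F := by
    intro P hP Q hQ hPQ
    have h1 := hq2 P hP
    have h2 := hq2 Q hQ
    rw [← hPQ] at h2
    exact hF3 P hP Q hQ (Sp_unique h1 h2)
  have hex : ∀ s' ∈ S, ∃ p : Pt K, Sp π0 s' p ∧ ∀ P ∈ F, q P = s' → p = P := by
    intro s' hs'
    by_cases h : ∃ P ∈ F, q P = s'
    · obtain ⟨P, hP, h1⟩ := h
      refine ⟨P, ?_, ?_⟩
      · rw [← h1]; exact hq2 P hP
      · intro Q hQ h2
        exact (hqinj hQ hP (h2.trans h1.symm)).symm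
    · obtain ⟨p, hp⟩ := Sp_exists π0 (hSon s' hs').1
      exact ⟨p, hp, fun P hP h1 => absurd ⟨P, hP, h1⟩ h⟩
  choose! c0 hc0 hc0' using hex
  have hex1 : ∀ s' ∈ S, ∃ p : Pt K, Sp π1 s' p := fun s' hs' => Sp_exists π1 (hSon s' hs').1
  choose! c1 hc1' using hex1
  have hrel := conj_rel (a := a) (b := b) hf2 hs S hS hc0 hc1'
  -- the points over infinity
  have hinf : ∀ s' ∈ S, aa (c1 s') ∈ RatEq1 a b := by
    intro s' hs'
    have h1 := hc1' s' hs'
    have h2 := Sp_onW ha hb (hSon s' hs') h1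
    obtain ⟨τ, hτ, rfl⟩ := (hS s').1 hs'
    apply aa_lin ha hb hu0 hu h2
    refine lin_inf (s := s.map τ) ?_ ?_ h1 (v0 := v0) (v1 := v1)
    · rw [lin_map, hs1, map_one]
    · rw [lin_map, ← hU]
      intro h3
      obtain ⟨π', hπ'⟩ := comap π1 τ
      have h4 : U ∈ π'.V := (hπ' U).2 h3
      have h5 : f ∈ π'.V := by
        rw [hf]
        exact sum_mem fun k _ => π'.V.mul_mem _ _ (mem_aeval h4 (c k)) (hint π' k h4)
      have h6 := (hπ' f).1 h5
      rw [hτ] at h6
      exact hπ1 h6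
  have hsum : (∑ s' ∈ S, aa (c0 s')) ∈ RatEq1 a b := by
    have h1 := AddSubgroup.add_mem _ hrel (AddSubgroup.sum_mem _ fun s' hs' => hinf s' hs')
    rwa [sub_add_cancel] at h1
  -- splitting
  have hsub : F.image q ⊆ S := by
    intro x hx
    obtain ⟨P, hP, rfl⟩ := Finset.mem_image.1 hx
    exact hq1 P hP
  refine ⟨(S \ F.image q).val.map c0, ?_, ?_, ?_⟩
  · rw [Multiset.card_map, Finset.card_val, Finset.card_sdiff_of_subset hsub, Finset.card_image_of_injOn hqinj, ← hr]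
    have h1 : n * (D + A) = n * D + n * A := Nat.mul_add _ _ _
    omega
  · intro P hP
    obtain ⟨s', hs', rfl⟩ := Multiset.mem_map.1 hP
    have h1 : s' ∈ S := Finset.sdiff_subset hs'
    exact Sp_onW ha hb (hSon s' h1) (hc0 s' h1)
  · have h1 : (Multiset.map aa ((S \ F.image q).val.map c0)).sum = ∑ s' ∈ S \ F.image q, aa (c0 s') := by
      rw [Multiset.map_map]; rfl
    have h2 : ∑ P ∈ F, aa P = ∑ s' ∈ F.image q, aa (c0 s') := by
      rw [Finset.sum_image hqinj]
      refine Finset.sum_congr rfl fun P hP => ?_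
      rw [hc0' (q P) (hq1 P hP) P hP rfl]
    rw [h1, h2, add_comm, Finset.sum_sdiff hsub]
    exact le_tor _ hsum

theorem lemB (ha : a.IsHomogeneous 8) (hb : b.IsHomogeneous 12) (hD : disc a b ≠ 0)
    {u0 u1 v0 v1 : K} (huv : u0 * v1 ≠ u1 * v0) (hu : ev (disc a b) u0 u1 = 0) (hv : ev (disc a b) v0 v1 = 0)
    {s : Pt (Om K)} (hs : OnW a b s) (hs1 : lin u0 u1 s = 1) (hs2 : ∀ c : K, lin v0 v1 s ≠ algebraMap K (Om K) c) :
    ∃ g : ℕ, ∀ F : Finset (Pt K), (∀ P ∈ F, ∃ π, Sp π s P) → (∀ P ∈ F, ∀ Q ∈ F, Prp P Q → P = Q) →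
      ∃ R : Multiset (Pt K), Multiset.card R ≤ g ∧ (∀ P ∈ R, OnW a b P) ∧
        (∑ P ∈ F, aa P) + (R.map aa).sum ∈ T1 a b := by
  classical
  obtain ⟨g, hg⟩ := lemB_core ha hb huv hu hs hs1 hs2
  have hu0 : u0 ≠ 0 ∨ u1 ≠ 0 := by
    by_contra h
    push Not at h
    rw [h.1, h.2] at huv
    simp at huv
  refine ⟨g, fun F hF1 hF2 => ?_⟩
  set F1 := F.filter (fun P => lin u0 u1 P ≠ 0) with hF1'
  have hzero : (∑ P ∈ F.filter (fun P => ¬ lin u0 u1 P ≠ 0), aa P) ∈ T1 a b := by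
    refine AddSubgroup.sum_mem _ fun P hP => le_tor _ ?_
    obtain ⟨h1, h2⟩ := Finset.mem_filter.1 hP
    obtain ⟨π, hπ⟩ := hF1 P h1
    exact aa_lin ha hb hu0 hu (Sp_onW ha hb hs hπ) (not_not.1 h2)
  rcases F1.eq_empty_or_nonempty with h0 | h0
  · refine ⟨0, Nat.zero_le _, fun P hP => absurd hP (Multiset.notMem_zero P), ?_⟩
    rw [Multiset.map_zero, Multiset.sum_zero, add_zero, ← Finset.sum_filter_add_sum_filter_not F (fun P => lin u0 u1 P ≠ 0),
      ← hF1', h0, Finset.sum_empty, zero_add]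
    exact hzero
  · obtain ⟨R, h1, h2, h3⟩ := hg F1 h0 (fun P hP => hF1 P (Finset.mem_filter.1 hP).1)
      (fun P hP => (Finset.mem_filter.1 hP).2)
      (fun P hP Q hQ => hF2 P (Finset.mem_filter.1 hP).1 Q (Finset.mem_filter.1 hQ).1)
    refine ⟨R, h1, h2, ?_⟩
    rw [← Finset.sum_filter_add_sum_filter_not F (fun P => lin u0 u1 P ≠ 0), ← hF1', add_right_comm]
    exact AddSubgroup.add_mem _ h3 hzero

end H25.V1
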