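import Pool.Agent.H25.V1.Ins
import Pool.Agent.H25.V1.Fact1
import Pool.Agent.H25.V1.FibK
import Pool.Agent.H25.V1.Abs
import Pool.Agent.H25.V1.SpU
import Pool.Agent.H25.V1.LemB


/-! # V1.Comb : products of many points of one curve (about 250 lines)

`s.t0 = s.t1 = 0`: `g = 0`, all specialisations have `t0 = t1 = 0`, `aa_zero`, `kill1`.  `lin u0 u1 s = 0`: `g = 0`, `lin u0 u1 P = 0`, `aa_lin`, `kill1`.  Otherwise replace `s` by `s.smul (lin u0 u1 s)⁻¹` (`Sp_scale`).
If `lin v0 v1 s = c` is constant: `g = 1`: for all specialisations `lin v0 v1 P = c * lin u0 u1 P`; two of them satisfy `P.t0 * Q.t1 = P.t1 * Q.t0`: `fib`, `kill2`.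
Otherwise `g` from `lemB`.  If two of the points `P i`, `i ∈ I` are proportional (or equal): `fib`, `kill2`.  Otherwise `lemB` for the set of the `P i`, and `absm` for
`A = ZW a b` (subtype), `G = CycM K m ⧸ TM a b m`, `T` = the elements of `ZW` in `T1`, `S` = the `aa P`, `P` on `W`. -/

namespace H25.V1

open H68.BB H25.KP

variable {K : Type} [Field K]

private theorem comb_ev_scale {F : Type} [Field F] [Algebra K F] {q : MvPolynomial (Fin 2) K} {n : ℕ}
    (hq : q.IsHomogeneous n) (c t0 t1 : F) : ev q (c * t0) (c * t1) = c ^ n * ev q t0 t1 := by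
  unfold ev
  rw [MvPolynomial.aeval_def, MvPolynomial.aeval_def, MvPolynomial.eval₂_eq', MvPolynomial.eval₂_eq',
    Finset.mul_sum]
  refine Finset.sum_congr rfl fun d hd => ?_
  have h1 : d 0 + d 1 = n := by
    have h2 := hq (MvPolynomial.mem_support_iff.1 hd)
    rw [← h2]
    simp [Finsupp.weight_apply, Finsupp.sum_fintype, Fin.sum_univ_two]
  rw [Fin.prod_univ_two, Fin.prod_univ_two, ← h1]
  simp only [Matrix.cons_val_zero, Matrix.cons_val_one]
  ring

private theorem comb_OnW_smul {a b : MvPolynomial (Fin 2) K} (ha : a.IsHomogeneous 8) (hb : b.IsHomogeneous 12)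
    {F : Type} [Field F] [Algebra K F] {P : Pt F} (hP : OnW a b P) {c : F} (hc : c ≠ 0) : OnW a b (P.smul c) := by
  refine ⟨?_, ?_⟩
  · rcases hP.1 with hp | hp | hp | hp
    · exact Or.inl (mul_ne_zero hc hp)
    · exact Or.inr (Or.inl (mul_ne_zero hc hp))
    · exact Or.inr (Or.inr (Or.inl (mul_ne_zero (pow_ne_zero _ hc) hp)))
    · exact Or.inr (Or.inr (Or.inr (mul_ne_zero (pow_ne_zero _ hc) hp)))
  · show (c ^ 6 * P.y) ^ 2 = (c ^ 4 * P.x) ^ 3 + ev a (c * P.t0) (c * P.t1) * (c ^ 4 * P.x) + ev b (c * P.t0) (c * P.t1)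
    rw [comb_ev_scale ha, comb_ev_scale hb]
    linear_combination c ^ 12 * hP.2

variable {a b : MvPolynomial (Fin 2) K} {m : ℕ}

/-- a torsion class in the quotient is zero -/
private theorem quot_tf {A : Type} [AddCommGroup A] (H : AddSubgroup A) (N : ℕ) (g : A ⧸ tor H) (hN : 0 < N)
    (h : N • g = 0) : g = 0 := by
  induction g using QuotientAddGroup.induction_on with
  | H z =>
    have h1 : ((N • z : A) : A ⧸ tor H) = 0 := h
    rw [QuotientAddGroup.eq_zero_iff] at h1 ⊢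
    exact tor_sat hN h1

/-- the final step: a relation between the points -/
private theorem comb_abs [IsAlgClosed K] [NZ6 K] (ha : a.IsHomogeneous 8) (hb : b.IsHomogeneous 12)
    (hD : disc a b ≠ 0)
    {u0 u1 v0 v1 : K} (huv : u0 * v1 ≠ u1 * v0) (hu : ev (disc a b) u0 u1 = 0) (hv : ev (disc a b) v0 v1 = 0)
    {mul : MultilinearMap ℤ (fun _ : Fin m => Cyc1 K) (CycM K m)} (hm : IsPr mul)
    {P : Fin m → Pt K} (hP : ∀ i, OnW a b (P i)) {I : Finset (Fin m)} {L : List (Pt K)}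
    (hR : L.length < I.card) (hRW : ∀ Q ∈ L, OnW a b Q)
    (h : (∑ i ∈ I, aa (P i)) + (L.map aa).sum ∈ T1 a b) : mul (fun i => aa (P i)) ∈ TM a b m := by
  classical
  let ι : (ZW a b) →ₗ[ℤ] Cyc1 K := (AddSubgroup.subtype (ZW a b)).toIntLinearMap
  let q : CycM K m →ₗ[ℤ] (CycM K m ⧸ TM a b m) := (QuotientAddGroup.mk' (TM a b m)).toIntLinearMap
  let M : MultilinearMap ℤ (fun _ : Fin m => ZW a b) (CycM K m ⧸ TM a b m) :=
    q.compMultilinearMap (mul.compLinearMap (fun _ => ι))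
  have hM : ∀ z : Fin m → ZW a b, M z = ((mul (fun i => (z i : Cyc1 K)) : CycM K m) : CycM K m ⧸ TM a b m) :=
    fun z => rfl
  have key := absm M (fun N g hN hg => quot_tf (RatEqM a b m) N g hN hg)
    ((T1 a b).comap (AddSubgroup.subtype (ZW a b))) ?_ {z | ∃ Q : Pt K, OnW a b Q ∧ (z : Cyc1 K) = aa Q} ?_ ?_
    (fun i => ⟨aa (P i), aa_ZW ha hb (hP i)⟩) (fun i => ⟨P i, hP i, rfl⟩) I hR
    (fun l : Fin L.length => ⟨aa (L.get l), aa_ZW ha hb (hRW _ (List.get_mem _ _))⟩)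
    (fun l => ⟨_, hRW _ (List.get_mem _ _), rfl⟩) ?_
  · rw [hM, QuotientAddGroup.eq_zero_iff] at key
    exact key
  · rintro z ⟨i, hi⟩
    rw [hM, QuotientAddGroup.eq_zero_iff]
    exact kill1 hm (fun j => (z j).2) hi
  · intro z hz i j hij
    obtain ⟨Q, hQ, hQ1⟩ := hz i
    obtain ⟨Q', hQ', hQ1'⟩ := hz j
    rw [hM, hM, QuotientAddGroup.eq, ← sub_eq_neg_add]
    exact swap2 hm (z := fun l => (z l : Cyc1 K)) (fun l => (z l).2) hij hQ1 hQ1'
      (sym ha hb hD huv hu hv hQ hQ')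
  · intro z hz i j hij hzz
    obtain ⟨Q, hQ, hQ1⟩ := hz i
    rw [hM, QuotientAddGroup.eq_zero_iff]
    have h1 : (z j : Cyc1 K) = aa Q := by rw [← hzz, hQ1]
    exact kill2 hm (z := fun l => (z l : Cyc1 K)) (fun l => (z l).2) hij hQ1 h1
      (fib ha hb hD huv hu hv hQ hQ (by ring))
  · have h3 : (List.map aa L).sum = ∑ l : Fin L.length, aa (L.get l) := by
      rw [← List.sum_ofFn]
      congr 1
      conv_lhs => rw [← List.ofFn_get L]
      rw [List.map_ofFn]
      rfl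
    rw [AddSubgroup.mem_comap, map_add, map_sum, map_sum]
    simp only [AddSubgroup.subtype_apply]
    rw [← h3]
    exact h

/-- two points on the same fibre -/
private theorem comb_fib [IsAlgClosed K] [NZ6 K] (ha : a.IsHomogeneous 8) (hb : b.IsHomogeneous 12)
    (hD : disc a b ≠ 0)
    {u0 u1 v0 v1 : K} (huv : u0 * v1 ≠ u1 * v0) (hu : ev (disc a b) u0 u1 = 0) (hv : ev (disc a b) v0 v1 = 0)
    {mul : MultilinearMap ℤ (fun _ : Fin m => Cyc1 K) (CycM K m)} (hm : IsPr mul)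
    {P : Fin m → Pt K} (hP : ∀ i, OnW a b (P i)) {i j : Fin m} (hij : i ≠ j)
    (h : (P i).t0 * (P j).t1 = (P i).t1 * (P j).t0) : mul (fun i => aa (P i)) ∈ TM a b m :=
  kill2 hm (z := fun i => aa (P i)) (fun l => aa_ZW ha hb (hP l)) hij rfl rfl
    (fib ha hb hD huv hu hv (hP i) (hP j) h)

/-- the case `lin u0 u1 s = 1` -/
private theorem comb_one [IsAlgClosed K] [NZ6 K] (ha : a.IsHomogeneous 8) (hb : b.IsHomogeneous 12)
    (hD : disc a b ≠ 0)
    {u0 u1 v0 v1 : K} (huv : u0 * v1 ≠ u1 * v0) (hu : ev (disc a b) u0 u1 = 0) (hv : ev (disc a b) v0 v1 = 0)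
    {s : Pt (Om K)} (hs : OnW a b s) (hs1 : lin u0 u1 s = 1) :
    ∃ g : ℕ, ∀ (m : ℕ) (mul : MultilinearMap ℤ (fun _ : Fin m => Cyc1 K) (CycM K m)), IsPr mul →
      ∀ (P : Fin m → Pt K), (∀ i, OnW a b (P i)) → ∀ I : Finset (Fin m), I.card = g + 1 →
        (∀ i ∈ I, ∃ π, Sp π s (P i)) → mul (fun i => aa (P i)) ∈ TM a b m := by
  classical
  by_cases hc : ∃ c : K, lin v0 v1 s = algebraMap K (Om K) c
  · obtain ⟨c, hc⟩ := hc
    refine ⟨1, fun m mul hm P hP I hI hsp => ?_⟩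
    obtain ⟨i, hi, j, hj, hij⟩ := Finset.one_lt_card.1 (by rw [hI]; norm_num : 1 < I.card)
    have hrel : ∀ i ∈ I, lin v0 v1 (P i) = c * lin u0 u1 (P i) := by
      intro i hi
      obtain ⟨π, h⟩ := hsp i hi
      obtain ⟨-, d, hd, h0, h1, -, -⟩ := h
      have e1 := lin_rd h0 h1 u0 u1
      have e2 := lin_rd h0 h1 v0 v1
      rw [hs1, mul_one] at e1
      rw [hc] at e2
      have e3 := Rd.mul (show Rd π.V π.φ (algebraMap K (Om K) c) c from π.const c) e1
      rw [mul_comm] at e3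
      exact e2.unique e3
    refine comb_fib ha hb hD huv hu hv hm hP hij ?_
    have e1 := hrel i hi
    have e2 := hrel j hj
    simp only [lin, Algebra.algebraMap_self, RingHom.id_apply] at e1 e2
    -- (v1 - c u1) t0 = (v0 - c u0) t1
    have f1 : (v1 - c * u1) * (P i).t0 = (v0 - c * u0) * (P i).t1 := by linear_combination e1
    have f2 : (v1 - c * u1) * (P j).t0 = (v0 - c * u0) * (P j).t1 := by linear_combination e2
    by_cases hz : v0 - c * u0 = 0
    · have hz1 : v1 - c * u1 ≠ 0 := by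
        intro hz1
        apply huv
        have g1 : v0 = c * u0 := sub_eq_zero.1 hz
        have g2 : v1 = c * u1 := sub_eq_zero.1 hz1
        rw [g1, g2]; ring
      apply mul_left_cancel₀ hz1
      linear_combination (P j).t1 * f1 - (P i).t1 * f2
    · apply mul_left_cancel₀ hz
      linear_combination (P j).t0 * f1 - (P i).t0 * f2
  · push Not at hc
    obtain ⟨g, hg⟩ := lemB ha hb hD huv hu hv hs hs1 hc
    refine ⟨g, fun m mul hm P hP I hI hsp => ?_⟩
    by_cases hp : ∃ i ∈ I, ∃ j ∈ I, i ≠ j ∧ Prp (P i) (P j)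
    · obtain ⟨i, -, j, -, hij, d, hd, hPd⟩ := hp
      refine comb_fib ha hb hD huv hu hv hm hP hij ?_
      rw [hPd]
      show (P i).t0 * (d * (P i).t1) = (P i).t1 * (d * (P i).t0)
      ring
    · push Not at hp
      have hinj : Set.InjOn P I := by
        intro i hi j hj h
        by_contra hij
        refine hp i hi j hj hij ?_
        rw [← h]
        exact Prp_refl _
      obtain ⟨R, hR, hRW, hsum⟩ := hg (I.image P)
        (by
          intro Q hQ
          obtain ⟨i, hi, rfl⟩ := Finset.mem_image.1 hQ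
          exact hsp i hi)
        (by
          intro Q hQ Q' hQ' h
          obtain ⟨i, hi, rfl⟩ := Finset.mem_image.1 hQ
          obtain ⟨j, hj, rfl⟩ := Finset.mem_image.1 hQ'
          by_contra hne
          exact hp i hi j hj (fun e => hne (by rw [e])) h)
      rw [Finset.sum_image hinj] at hsum
      rw [← Multiset.coe_toList R, Multiset.map_coe, Multiset.sum_coe] at hsum
      refine comb_abs ha hb hD huv hu hv hm hP (I := I) (L := R.toList) ?_ ?_ hsum
      · rw [Multiset.length_toList]; omega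
      · intro Q hQ
        exact hRW Q (Multiset.mem_toList.1 hQ)

theorem comb [IsAlgClosed K] [NZ6 K] (ha : a.IsHomogeneous 8) (hb : b.IsHomogeneous 12) (hD : disc a b ≠ 0)
    {u0 u1 v0 v1 : K} (huv : u0 * v1 ≠ u1 * v0) (hu : ev (disc a b) u0 u1 = 0) (hv : ev (disc a b) v0 v1 = 0)
    {s : Pt (Om K)} (hs : OnW a b s) :
    ∃ g : ℕ, ∀ (m : ℕ) (mul : MultilinearMap ℤ (fun _ : Fin m => Cyc1 K) (CycM K m)), IsPr mul →
      ∀ (P : Fin m → Pt K), (∀ i, OnW a b (P i)) → ∀ I : Finset (Fin m), I.card = g + 1 →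
        (∀ i ∈ I, ∃ π, Sp π s (P i)) → mul (fun i => aa (P i)) ∈ TM a b m := by
  classical
  have hu0 : u0 ≠ 0 ∨ u1 ≠ 0 := by
    by_contra h
    push Not at h
    apply huv
    rw [h.1, h.2, zero_mul, zero_mul]
  by_cases h1 : lin u0 u1 s = 0
  · refine ⟨0, fun m mul hm P hP I hI hsp => ?_⟩
    obtain ⟨i, hi⟩ := Finset.card_pos.1 (by rw [hI]; norm_num : 0 < I.card)
    obtain ⟨π, hπ, d, hd, e0, e1, -, -⟩ := hsp i hi
    have e3 := lin_rd e0 e1 u0 u1
    rw [h1, mul_zero] at e3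
    exact kill1 hm (z := fun i => aa (P i)) (fun l => aa_ZW ha hb (hP l))
      (i := i) (le_tor _ (aa_lin ha hb hu0 hu (hP i) (e3.unique Rd.zero)))
  · have hs' : OnW a b (s.smul (lin u0 u1 s)⁻¹) := comb_OnW_smul ha hb hs (inv_ne_zero h1)
    have hs1 : lin u0 u1 (s.smul (lin u0 u1 s)⁻¹) = 1 := by
      rw [lin_smul, inv_mul_cancel₀ h1]
    obtain ⟨g, hg⟩ := comb_one ha hb hD huv hu hv hs' hs1
    refine ⟨g, fun m mul hm P hP I hI hsp => hg m mul hm P hP I hI fun i hi => ?_⟩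
    obtain ⟨π, hπ⟩ := hsp i hi
    exact ⟨π, (Sp_scale (inv_ne_zero h1)).2 hπ⟩

end H25.V1
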