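import Pool.Agent.H25.V1.Tr


/-! # V1.Conj : the conjugates of `β` over `f` (about 200 lines)

`f` is transcendental over `K` and everything is algebraic over `K(f)` (`V1.Tr`).  Let `Om'` be a type synonym of `Om K` (depending on `f`) with the algebra structure over `RatFunc K`
with `X ↦ f` (`IsFractionRing.lift` / `RatFunc.liftAlgHom` of `aeval f`); it is algebraic.  `m` = the minimal polynomial of `β` over `RatFunc K` in this structure.
`G` = a primitive multiple with coefficients in `K[X]`: clear denominators (`IsLocalization.integerNormalization`, as in `place_exists` in `H68.BB.Plc`, or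
`Polynomial.IsPrimitive`), then divide by the highest power of the constant polynomial `C X` (`WfDvdMonoid.max_power_factor`, see the proof of
`place_exists`), so that `G.map (evalRingHom 0) ≠ 0`.  The roots of `G(tt, ·)` are the roots of `m` mapped by `X ↦ tt`, and
`Algebra.IsAlgebraic.range_eval_eq_rootSet_minpoly` (with `K := Om'`, `A := Om K` with its own algebra structure) gives for every root `ρ` a homomorphism `ψ : Om' →ₐ[RatFunc K] Om K`
with `ψ β = ρ`; it sends `f` to `tt` and is the identity on `K`. -/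

namespace H25.V1

open H68.BB H25.KP Polynomial

variable {K : Type} [Field K]

private theorem conj_hom {F E L : Type} [Field F] [Field E] [Field L] [IsAlgClosed L]
    (i : F →+* E) (j : F →+* L) (hi : ∀ x : E, ∃ p : F[X], p ≠ 0 ∧ p.eval₂ i x = 0) (x : E) :
    ∃ m : F[X], m ≠ 0 ∧ m.eval₂ i x = 0 ∧
      ∀ y : L, m.eval₂ j y = 0 → ∃ φ : E →+* L, φ.comp i = j ∧ φ x = y := by
  let _ : Algebra F E := i.toAlgebra
  let _ : Algebra F L := j.toAlgebra
  have halg : ∀ x : E, IsIntegral F x := fun x => by
    obtain ⟨p, hp, hpx⟩ := hi x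
    exact IsAlgebraic.isIntegral ⟨p, hp, hpx⟩
  refine ⟨minpoly F x, minpoly.ne_zero (halg x), minpoly.aeval F x, fun y hy => ?_⟩
  obtain ⟨φ, hφ⟩ := IntermediateField.exists_algHom_of_splits_of_aeval (F := F) (E := E) (K := L)
    (fun s => ⟨halg s, IsAlgClosed.splits _⟩) (x := x) (y := y) hy
  exact ⟨φ.toRingHom, φ.comp_algebraMap, hφ⟩

theorem conj [IsAlgClosed K] {f : Om K} (hf : ∀ c : K, f ≠ algebraMap K (Om K) c) (β : Om K) :
    ∃ G : K[X][X], G.map (evalRingHom (0 : K)) ≠ 0 ∧ G.map (aeval (tt K) : K[X] →ₐ[K] Om K).toRingHom ≠ 0 ∧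
      G.eval₂ (aeval f : K[X] →ₐ[K] Om K).toRingHom β = 0 ∧
      (∀ ρ : Om K, (G.map (aeval (tt K) : K[X] →ₐ[K] Om K).toRingHom).IsRoot ρ →
        ∃ τ : Om K →ₐ[K] Om K, τ f = tt K ∧ τ β = ρ) ∧
      (∀ τ : Om K →ₐ[K] Om K, τ f = tt K → (G.map (aeval (tt K) : K[X] →ₐ[K] Om K).toRingHom).IsRoot (τ β)) := by
  classical
  have hftr : Transcendental K f := trans hf
  have httr : Transcendental K (tt K) := transcendental_tt
  set ef : K[X] →+* Om K := (aeval f : K[X] →ₐ[K] Om K).toRingHom with hef
  set et : K[X] →+* Om K := (aeval (tt K) : K[X] →ₐ[K] Om K).toRingHom with het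
  have hefi : Function.Injective ef := transcendental_iff_injective.mp hftr
  have heti : Function.Injective et := transcendental_iff_injective.mp httr
  let φf : RatFunc K →+* Om K := IsFractionRing.lift (A := K[X]) (K := RatFunc K) hefi
  let φt : RatFunc K →+* Om K := IsFractionRing.lift (A := K[X]) (K := RatFunc K) heti
  have hφf : ∀ p : K[X], φf (algebraMap K[X] (RatFunc K) p) = ef p := fun p =>
    IsFractionRing.lift_algebraMap hefi p
  have hφt : ∀ p : K[X], φt (algebraMap K[X] (RatFunc K) p) = et p := fun p =>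
    IsFractionRing.lift_algebraMap heti p
  have hcf : φf.comp (algebraMap K[X] (RatFunc K)) = ef := RingHom.ext hφf
  have hct : φt.comp (algebraMap K[X] (RatFunc K)) = et := RingHom.ext hφt
  have hi : ∀ x : Om K, ∃ p : (RatFunc K)[X], p ≠ 0 ∧ p.eval₂ φf x = 0 := by
    intro x
    obtain ⟨G, hG, hGx⟩ := alg hf x
    refine ⟨G.map (algebraMap K[X] (RatFunc K)), ?_, ?_⟩
    · rw [Ne, Polynomial.map_eq_zero_iff (RatFunc.algebraMap_injective K)]
      exact hG
    · rw [eval₂_map, hcf]
      exact hGx
  obtain ⟨m, hm, hmβ, hmy⟩ := conj_hom φf φt hi β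
  obtain ⟨b, hbm, hb⟩ := IsLocalization.integerNormalization_spec (nonZeroDivisors K[X]) m
  set G0 : K[X][X] := IsLocalization.integerNormalization (nonZeroDivisors K[X]) m with hG0def
  have hb0 : (b : K[X]) ≠ 0 := nonZeroDivisors.ne_zero hbm
  have hG0 : G0 ≠ 0 := by
    intro h0
    rw [h0, Polynomial.map_zero] at hb
    have h1 : (algebraMap K[X] (RatFunc K) (b : K[X])) • m = 0 := by
      rw [algebraMap_smul]
      exact hb.symm
    rcases smul_eq_zero.mp h1 with h2 | h2
    · exact hb0 ((RatFunc.algebraMap_injective K) (h2.trans (map_zero _).symm))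
    · exact hm h2
  have hsm : ∀ (φ : RatFunc K →+* Om K) (y : Om K),
      G0.eval₂ (φ.comp (algebraMap K[X] (RatFunc K))) y =
        φ (algebraMap K[X] (RatFunc K) (b : K[X])) * m.eval₂ φ y := by
    intro φ y
    rw [← eval₂_map, hb, ← algebraMap_smul (RatFunc K) (b : K[X]) m, eval₂_smul]
  have hirr : Irreducible (C (X : K[X]) : K[X][X]) :=
    (Polynomial.prime_C_iff.mpr Polynomial.prime_X).irreducible
  obtain ⟨n, G, hnd, hGG⟩ := WfDvdMonoid.max_power_factor hG0 hirr
  have hGne : G ≠ 0 := by
    rintro rfl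
    exact hnd (dvd_zero _)
  have hfac : ∀ (e : K[X] →+* Om K) (y : Om K), G0.eval₂ e y = (e X) ^ n * G.eval₂ e y := by
    intro e y
    rw [hGG, eval₂_mul, eval₂_pow, eval₂_C]
  have hefX : ef X = f := by simp [hef]
  have hetX : et X = tt K := by simp [het]
  refine ⟨G, ?_, ?_, ?_, ?_, ?_⟩
  · intro h0
    apply hnd
    rw [C_dvd_iff_dvd_coeff]
    intro k
    rw [X_dvd_iff]
    have h4 := congrArg (fun q => q.coeff k) h0
    simpa [coeff_map, coeff_zero_eq_eval_zero] using h4
  · rw [Ne, Polynomial.map_eq_zero_iff heti]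
    exact hGne
  · have h1 := hfac ef β
    have h2 := hsm φf β
    rw [hcf, hmβ, mul_zero] at h2
    rw [h2, hefX] at h1
    rcases mul_eq_zero.mp h1.symm with h3 | h3
    · exfalso
      have h4 := eq_zero_of_pow_eq_zero h3
      exact hf 0 (by rw [h4, map_zero])
    · exact h3
  · intro ρ hρ
    have h0 : G.eval₂ et ρ = 0 := by
      rw [← eval_map]
      exact hρ
    have h1 := hfac et ρ
    rw [h0, mul_zero] at h1
    have h2 := hsm φt ρ
    rw [hct, h1] at h2
    rcases mul_eq_zero.mp h2.symm with h3 | h3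
    · exfalso
      rw [hφt] at h3
      exact hb0 (heti (h3.trans (map_zero et).symm))
    · obtain ⟨φ, hφi, hφβ⟩ := hmy ρ h3
      have hcomp : ∀ p : K[X], φ (ef p) = et p := by
        intro p
        rw [← hφf, ← hφt, ← hφi]
        rfl
      let τ : Om K →ₐ[K] Om K :=
        { φ with
          commutes' := fun c => by
            have h5 := hcomp (C c)
            simpa [hef, het] using h5 }
      refine ⟨τ, ?_, hφβ⟩
      have h6 := hcomp X
      rw [hefX, hetX] at h6
      exact h6
  · intro τ hτ
    have hG : G.eval₂ ef β = 0 := by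
      have h1 := hfac ef β
      have h2 := hsm φf β
      rw [hcf, hmβ, mul_zero] at h2
      rw [h2, hefX] at h1
      rcases mul_eq_zero.mp h1.symm with h3 | h3
      · exfalso
        have h4 := eq_zero_of_pow_eq_zero h3
        exact hf 0 (by rw [h4, map_zero])
      · exact h3
    have h5 : τ.toRingHom.comp ef = et := by
      refine RingHom.ext fun p => ?_
      change τ (aeval f p) = aeval (tt K) p
      rw [← hτ, ← Polynomial.aeval_algHom_apply]
    have h6 := congrArg τ.toRingHom hG
    rw [hom_eval₂, h5, map_zero] at h6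
    change eval _ _ = 0
    rw [eval_map]
    exact h6

end H25.V1
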