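import Pool.Agent.H25.KP.Main


/-! # V1.Def : zero-cycles on `W^m` for an elliptic K3 surface `W : y^2 = x^3 + a x + b` in `ℙ(1,1,4,6)`
(definitions only, no sorry)

`K` is a field (later: algebraically closed of characteristic different from 2 and 3), `Om K` the algebraic closure of `K(t)`, `Place K (Om K)`
a `K`-rational place of it, `Pt F` the coordinate vectors `(t0, t1, x, y)`, `OnW a b P` : `P` lies on `W`, `Sp π P p` : `P` specialises to `p` at
the place `π` (all from `H25.KP.Def`).  Everything here is the version for `m` factors of the definitions for pairs in `H25.KP.Def`. -/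

namespace H25.V1

open H68.BB H25.KP

variable {K : Type} [Field K]

/-- zero-cycles on `W`: the free abelian group on coordinate vectors -/
abbrev Cyc1 (K : Type) : Type := Pt K →₀ ℤ

/-- zero-cycles on `W^m`: the free abelian group on `m`-tuples of coordinate vectors -/
abbrev CycM (K : Type) (m : ℕ) : Type := (Fin m → Pt K) →₀ ℤ

/-- the degree of a zero-cycle -/
noncomputable def deg (z : Cyc1 K) : ℤ := z.sum fun _ n => n

/-- the zero-cycle given by a multiset of `m`-tuples of points -/
noncomputable def cycM {m : ℕ} (S : Multiset (Fin m → Pt K)) : CycM K m :=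
  (S.map (fun P => (Finsupp.single P 1 : CycM K m))).sum

/-- all points of the multiset lie on `W^m` -/
def AllOnM {F : Type} [Field F] [Algebra K F] (a b : MvPolynomial (Fin 2) K) {m : ℕ}
    (S : Multiset (Fin m → Pt F)) : Prop :=
  ∀ s ∈ S, ∀ i, OnW a b (s i)

/-- a finite multiset of `m`-tuples of points over `Ω` which is stable under all automorphisms of `Ω` over `K(t)`: the generic
fibre of an effective 1-cycle of `ℙ¹ × W^m` all of whose components dominate `ℙ¹` (in characteristic `p`: after
multiplication with a power of `p`) -/
def GalStableM {m : ℕ} (S : Multiset (Fin m → Pt (Om K))) : Prop :=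
  ∀ σ : Om K ≃ₐ[RatFunc K] Om K, S.map (fun s i => (s i).map σ) = S

/-- specialisation of an `m`-tuple of points -/
def SpM {m : ℕ} (π : Place K (Om K)) (s : Fin m → Pt (Om K)) (p : Fin m → Pt K) : Prop :=
  ∀ i, Sp π (s i) (p i)

/-- zero-cycles of `W^m` rationally equivalent to zero (in characteristic `p`: zero-cycles which have a multiple by a power
of `p` rationally equivalent to zero): the subgroup generated by the differences of two fibres over
`ℙ¹` of effective 1-cycles of `ℙ¹ × W^m` which are dominant over `ℙ¹` -/
noncomputable def RatEqM (a b : MvPolynomial (Fin 2) K) (m : ℕ) : AddSubgroup (CycM K m) :=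
  AddSubgroup.closure {z | ∃ (S : Multiset (Fin m → Pt (Om K))) (π π' : Place K (Om K))
    (c c' : Multiset (Fin m → Pt K)), AllOnM a b S ∧ GalStableM S ∧ Multiset.Rel (SpM π) S c ∧
    Multiset.Rel (SpM π') S c' ∧ z = cycM c - cycM c'}

open Classical in
/-- the exterior product `z 0 × z 1 × ... × z (m - 1)`: the coefficient at the tuple `f` is the product of the
coefficients of `z i` at `f i` -/
noncomputable def prodM {m : ℕ} (z : Fin m → Cyc1 K) : CycM K m :=
  ∑ f ∈ Fintype.piFinset (fun i => (z i).support), Finsupp.single f (∏ i, z i (f i))

/-- the points of `W` which are specialisations of one of the points `s 0, ..., s (r - 1)` of `W` over `Ω`: the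
closed points of the union of finitely many irreducible curves (or closed points) of `W` -/
def SpecOf {r : ℕ} (s : Fin r → Pt (Om K)) : Set (Pt K) := {P | ∃ (π : Place K (Om K)) (j : Fin r), Sp π (s j) P}

end H25.V1
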