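import Pool.Agent.H25.V1.One


/-! # V1.Ins1 : inserting relations in one variable (about 120 lines)

`ins1`: as `exists_swap` in `H25.KP.Lim`: the homomorphism `Finsupp.mapDomain (fun P => Function.update Q i P)` sends the generators of `RatEq1` to
generators of `RatEqM`: take `S.map (fun s => Function.update (fun j => (Q j).map (algebraMap K (Om K))) i s)`; `OnW_cst`, `map_cst`, `Sp_cst`
(`(hQ j h).1` is `NZ`).  `map_update`-type identities: `funext j; by_cases j = i`.  The value `Q i` does not matter (it is overwritten; in `S` too).
`ins2`: the same for pairs.  `ins1_mul`, `ins2_mul`: `IsPr`, for `ins1_mul` use `Finsupp.induction_linear` (both sides are additive in `x`), `Function.update`. -/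

namespace H25.V1

open H68.BB H25.KP

variable {K : Type} [Field K] {a b : MvPolynomial (Fin 2) K} {m : ℕ}

open Classical in
theorem ins1 (i : Fin m) (Q : Fin m → Pt K) (hQ : ∀ j, j ≠ i → OnW a b (Q j)) {x : Cyc1 K} (hx : x ∈ RatEq1 a b) :
    Finsupp.mapDomain (fun P => Function.update Q i P) x ∈ RatEqM a b m := by
  let f : Pt K → (Fin m → Pt K) := fun P => Function.update Q i P
  let g : Pt (Om K) → (Fin m → Pt (Om K)) :=
    fun s => Function.update (fun j => (Q j).map (algebraMap K (Om K))) i s
  have hcyc : ∀ c : Multiset (Pt K), Finsupp.mapDomain.addMonoidHom f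
      ((c.map (fun p => (Finsupp.single p 1 : Cyc1 K))).sum) = cycM (c.map f) := by
    intro c
    rw [cycM, map_multiset_sum, Multiset.map_map, Multiset.map_map]
    congr 1
    apply Multiset.map_congr rfl
    intro p _
    exact Finsupp.mapDomain_single
  have hle : RatEq1 a b ≤ (RatEqM a b m).comap (Finsupp.mapDomain.addMonoidHom f) := by
    rw [RatEq1, AddSubgroup.closure_le]
    rintro z ⟨S, π, π', c, c', hW, hG, h1, h2, rfl⟩
    show Finsupp.mapDomain.addMonoidHom f _ ∈ RatEqM a b m
    rw [map_sub, hcyc, hcyc]
    apply AddSubgroup.subset_closure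
    have hrel : ∀ (π : Place K (Om K)) (c : Multiset (Pt K)), Multiset.Rel (Sp π) S c →
        Multiset.Rel (SpM π) (S.map g) (c.map f) := by
      intro π c h
      rw [Multiset.rel_map]
      refine h.mono (fun x _ y _ hxy => ?_)
      intro j
      by_cases hj : j = i
      · subst hj
        simpa [f, g] using hxy
      · simpa [f, g, hj] using Sp_cst π (hQ j hj).1
    refine ⟨S.map g, π, π', c.map f, c'.map f, ?_, ?_, hrel π c h1, hrel π' c' h2, rfl⟩
    · intro s hs j
      obtain ⟨x, hx, rfl⟩ := Multiset.mem_map.mp hs
      by_cases hj : j = i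
      · subst hj
        simpa [g] using hW x hx
      · simpa [g, hj] using OnW_cst (hQ j hj)
    · intro σ
      rw [Multiset.map_map]
      have h3 := congrArg (Multiset.map g) (hG σ)
      rw [Multiset.map_map] at h3
      refine Eq.trans ?_ h3
      apply Multiset.map_congr rfl
      intro s _
      funext j
      by_cases hj : j = i
      · subst hj
        simp [g]
      · simp [g, hj, map_cst]
  exact hle hx

open Classical in
theorem ins1_mul {mul : MultilinearMap ℤ (fun _ : Fin m => Cyc1 K) (CycM K m)} (hm : IsPr mul) (i : Fin m)
    (Q : Fin m → Pt K) (x : Cyc1 K) :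
    mul (Function.update (fun j => (Finsupp.single (Q j) 1 : Cyc1 K)) i x) =
      Finsupp.mapDomain (fun P => Function.update Q i P) x := by
  induction x using Finsupp.induction_linear with
  | zero => rw [MultilinearMap.map_update_zero, Finsupp.mapDomain_zero]
  | add x y hx hy => rw [MultilinearMap.map_update_add, Finsupp.mapDomain_add, hx, hy]
  | single P n =>
    have h1 : (Finsupp.single P n : Cyc1 K) = n • Finsupp.single P 1 := by
      rw [Finsupp.smul_single, smul_eq_mul, mul_one]
    have h2 : (Function.update (fun j => (Finsupp.single (Q j) 1 : Cyc1 K)) i (Finsupp.single P 1)) =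
        fun j => Finsupp.single (Function.update Q i P j) 1 := by
      funext j
      by_cases hj : j = i
      · subst hj
        simp
      · simp [hj]
    rw [h1, MultilinearMap.map_update_smul, h2, hm, ← h1, Finsupp.mapDomain_single, Finsupp.smul_single,
      smul_eq_mul, mul_one]

end H25.V1
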