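import Pool.Agent.H25.V1.One


/-! # V1.Ins2 : inserting relations between pairs

`ins2`: as `exists_swap` in `H25.KP.Lim` (and `V1.Ins1.ins1`): the homomorphism `Finsupp.mapDomain (fun s => update (update Q i s.1) j s.2)` sends the
generators of `H25.KP.RatEq` to generators of `RatEqM`.  `ins2_prod`: `IsPr`, multilinearity (`aa P = single P 1 - single o 1`, `map_update_sub`), `Finsupp.mapDomain_sub`/`_add`/`_single`. -/

namespace H25.V1

open H68.BB H25.KP

variable {K : Type} [Field K] {a b : MvPolynomial (Fin 2) K} {m : ℕ}

open Classical in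
/-- put a pair of points at the places `i`, `j` -/
private noncomputable def put {F : Type} (Q : Fin m → Pt F) (i j : Fin m) (s : Pt F × Pt F) : Fin m → Pt F :=
  Function.update (Function.update Q i s.1) j s.2

private theorem put_j {F : Type} (Q : Fin m → Pt F) (i j : Fin m) (s : Pt F × Pt F) : put Q i j s j = s.2 := by
  unfold put
  rw [Function.update_self]

private theorem put_i {F : Type} (Q : Fin m → Pt F) {i j : Fin m} (hij : i ≠ j) (s : Pt F × Pt F) :
    put Q i j s i = s.1 := by
  unfold put
  rw [Function.update_of_ne hij, Function.update_self]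

private theorem put_l {F : Type} (Q : Fin m → Pt F) {i j l : Fin m} (hi : l ≠ i) (hj : l ≠ j) (s : Pt F × Pt F) :
    put Q i j s l = Q l := by
  unfold put
  rw [Function.update_of_ne hj, Function.update_of_ne hi]

open Classical in
theorem ins2 {i j : Fin m} (hij : i ≠ j) (Q : Fin m → Pt K) (hQ : ∀ l, l ≠ i → l ≠ j → OnW a b (Q l)) {x : Cyc K}
    (hx : x ∈ RatEq a b) :
    Finsupp.mapDomain (fun s : Pt K × Pt K => Function.update (Function.update Q i s.1) j s.2) x ∈ RatEqM a b m := by
  let f : Cyc K →+ CycM K m := Finsupp.mapDomain.addMonoidHom (put Q i j)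
  let q : Fin m → Pt (Om K) := fun l => (Q l).map (algebraMap K (Om K))
  have hcyc : ∀ S : Multiset (Pt K × Pt K), f (cyc S) = cycM (S.map (put Q i j)) := by
    intro S
    rw [cyc, cycM, map_multiset_sum, Multiset.map_map, Multiset.map_map]
    congr 1
    apply Multiset.map_congr rfl
    intro s _
    exact Finsupp.mapDomain_single
  have hle : RatEq a b ≤ (RatEqM a b m).comap f := by
    rw [H25.KP.RatEq, AddSubgroup.closure_le]
    rintro z ⟨S, π, π', c, c', hW, hG, h1, h2, rfl⟩
    show f (cyc c - cyc c') ∈ RatEqM a b m
    rw [map_sub, hcyc, hcyc]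
    apply AddSubgroup.subset_closure
    have hon : ∀ s ∈ S, ∀ l, OnW a b (put q i j s l) := by
      intro s hs l
      by_cases hj : l = j
      · subst hj; rw [put_j]; exact (hW s hs).2
      · by_cases hi : l = i
        · subst hi; rw [put_i q hij]; exact (hW s hs).1
        · rw [put_l q hi hj]; exact OnW_cst (hQ l hi hj)
    have hrel : ∀ (π : Place K (Om K)) (c : Multiset (Pt K × Pt K)), Multiset.Rel (Sp2 π) S c →
        Multiset.Rel (SpM π) (S.map (put q i j)) (c.map (put Q i j)) := by
      intro π c h
      rw [Multiset.rel_map]
      refine h.mono (fun x _ y _ hxy l => ?_)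
      by_cases hj : l = j
      · subst hj; rw [put_j, put_j]; exact hxy.2
      · by_cases hi : l = i
        · subst hi; rw [put_i q hij, put_i Q hij]; exact hxy.1
        · rw [put_l q hi hj, put_l Q hi hj]; exact Sp_cst π (hQ l hi hj).1
    refine ⟨S.map (put q i j), π, π', c.map (put Q i j), c'.map (put Q i j), ?_, ?_, hrel π c h1, hrel π' c' h2, rfl⟩
    · intro s hs l
      obtain ⟨x, hx, rfl⟩ := Multiset.mem_map.mp hs
      exact hon x hx l
    · intro σ
      have h3 := congrArg (Multiset.map (put q i j)) (hG σ)
      rw [Multiset.map_map] at h3 ⊢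
      refine Eq.trans ?_ h3
      apply Multiset.map_congr rfl
      intro s _
      funext l
      show (put q i j s l).map σ = put q i j (s.1.map σ, s.2.map σ) l
      by_cases hj : l = j
      · subst hj; rw [put_j, put_j]
      · by_cases hi : l = i
        · subst hi; rw [put_i q hij, put_i q hij]
        · rw [put_l q hi hj, put_l q hi hj]; exact map_cst σ (Q l)
  exact hle hx

open Classical in
theorem ins2_prod {mul : MultilinearMap ℤ (fun _ : Fin m => Cyc1 K) (CycM K m)} (hm : IsPr mul) {i j : Fin m}
    (hij : i ≠ j) (Q : Fin m → Pt K) (P P' : Pt K) :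
    mul (Function.update (Function.update (fun l => (Finsupp.single (Q l) 1 : Cyc1 K)) i (aa P)) j (aa P')) =
      Finsupp.mapDomain (fun s : Pt K × Pt K => Function.update (Function.update Q i s.1) j s.2)
        (prod P (o K) P' (o K)) := by
  have key : ∀ A B : Pt K, mul (Function.update (Function.update (fun l => (Finsupp.single (Q l) 1 : Cyc1 K)) i
      (Finsupp.single A 1)) j (Finsupp.single B 1)) = Finsupp.single (put Q i j (A, B)) 1 := by
    intro A B
    rw [← hm]
    congr 1
    funext l
    by_cases hj : l = j
    · subst hj; rw [Function.update_self, put_j]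
    · by_cases hi : l = i
      · subst hi; rw [Function.update_of_ne hj, Function.update_self, put_i Q hij]
      · rw [Function.update_of_ne hj, Function.update_of_ne hi, put_l Q hi hj]
  have hR : Finsupp.mapDomain (fun s : Pt K × Pt K => Function.update (Function.update Q i s.1) j s.2)
        (prod P (o K) P' (o K)) =
      (Finsupp.single (put Q i j (P, P')) 1 - Finsupp.single (put Q i j (o K, P')) 1 -
        Finsupp.single (put Q i j (P, o K)) 1 + Finsupp.single (put Q i j (o K, o K)) 1 : CycM K m) := by
    have h4 : ∀ x : Cyc K, Finsupp.mapDomain (fun s : Pt K × Pt K => Function.update (Function.update Q i s.1) j s.2) x =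
      Finsupp.mapDomain.addMonoidHom (put Q i j) x := fun _ => rfl
    rw [h4, prod, map_add, map_sub, map_sub]
    simp only [KP.pt, Finsupp.mapDomain.addMonoidHom_apply, Finsupp.mapDomain_single]
  rw [hR]
  have hcomm : ∀ A B : Cyc1 K, Function.update (Function.update (fun l => (Finsupp.single (Q l) 1 : Cyc1 K)) i A) j B =
      Function.update (Function.update (fun l => (Finsupp.single (Q l) 1 : Cyc1 K)) j B) i A := by
    intro A B
    funext l
    by_cases hj : l = j
    · subst hj; rw [Function.update_self, Function.update_of_ne (Ne.symm hij), Function.update_self]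
    · by_cases hi : l = i
      · subst hi; rw [Function.update_of_ne hj, Function.update_self, Function.update_self]
      · rw [Function.update_of_ne hj, Function.update_of_ne hi, Function.update_of_ne hi, Function.update_of_ne hj]
  have e1 : mul (Function.update (Function.update (fun l => (Finsupp.single (Q l) 1 : Cyc1 K)) i (aa P)) j (aa P')) =
      mul (Function.update (Function.update (fun l => (Finsupp.single (Q l) 1 : Cyc1 K)) i (aa P)) j (Finsupp.single P' 1)) -
      mul (Function.update (Function.update (fun l => (Finsupp.single (Q l) 1 : Cyc1 K)) i (aa P)) j (Finsupp.single (o K) 1)) := by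
    rw [show aa P' = Finsupp.single P' 1 - Finsupp.single (o K) 1 from rfl, MultilinearMap.map_update_sub]
  have e2 : ∀ B : Cyc1 K,
      mul (Function.update (Function.update (fun l => (Finsupp.single (Q l) 1 : Cyc1 K)) i (aa P)) j B) =
      mul (Function.update (Function.update (fun l => (Finsupp.single (Q l) 1 : Cyc1 K)) i (Finsupp.single P 1)) j B) -
      mul (Function.update (Function.update (fun l => (Finsupp.single (Q l) 1 : Cyc1 K)) i (Finsupp.single (o K) 1)) j B) := by
    intro B
    rw [hcomm, hcomm, hcomm, show aa P = Finsupp.single P 1 - Finsupp.single (o K) 1 from rfl,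
      MultilinearMap.map_update_sub]
  rw [e1, e2, e2, key, key, key, key]
  abel

end H25.V1
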