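import Pool.Agent.H25.V1.Mult
import Pool.Agent.H25.V1.Ins1
import Pool.Agent.H25.V1.Ins2


/-! # V1.Ins : the exterior product modulo torsion (about 120 lines)

`kill1`: some variable is a torsion class.  Let `N • z i ∈ RatEq1`; apply `multi_ind` to the composite of `mul` with the quotient map
`CycM K m → CycM K m ⧸ RatEqM a b m` (`MultilinearMap` composed with a linear map: `LinearMap.compMultilinearMap`), with
`S i = {N • z i}` and `S j = {single P 1 | OnW P}` for `j ≠ i`, at `update z i (N • z i)`, using `ins1_mul`, `ins1`; `mul (update z i (N • z i)) = N • mul z`.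
`kill2`: the same with `ins2_prod`, `ins2` and `N • prod P o P' o ∈ RatEq`: `multi_ind` for the variables different from `i`, `j` (in these two: the singleton sets
`{aa P}`, `{aa P'}`), for the composite of `N • mul` with the quotient map.  `swap2`: for `M z := mul z - mul (z ∘ swap i j)` the same argument (`multi_ind` for the multilinear map
`mul - mul.domDomCongr (swap i j)`; at generators: `ins2_prod` for both terms, `main`).  Alternatively prove first the statement for `z l = single (Q l) 1` (`l ≠ i, j`) with an explicit
common multiple and then the general one by `multi_ind`. -/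

namespace H25.V1

open H68.BB H25.KP

variable {K : Type} [Field K] {a b : MvPolynomial (Fin 2) K} {m : ℕ}

/-- a multilinear map whose values at generators lie in a subgroup has values in the subgroup -/
theorem ins_multi_mem {A B : Type} [AddCommGroup A] [AddCommGroup B] (H : AddSubgroup B)
    (M : MultilinearMap ℤ (fun _ : Fin m => A) B) (S : Fin m → Set A)
    (h : ∀ y : Fin m → A, (∀ j, y j ∈ S j) → M y ∈ H) (z : Fin m → A)
    (hz : ∀ j, z j ∈ AddSubgroup.closure (S j)) : M z ∈ H := by
  have h0 := multi_ind ((QuotientAddGroup.mk' H).toIntLinearMap.compMultilinearMap M) S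
    (fun y hy => by
      have := h y hy
      change (QuotientAddGroup.mk' H) (M y) = 0
      exact (QuotientAddGroup.eq_zero_iff _).2 this) z hz
  change (QuotientAddGroup.mk' H) (M z) = 0 at h0
  exact (QuotientAddGroup.eq_zero_iff _).1 h0

theorem kill1 {mul : MultilinearMap ℤ (fun _ : Fin m => Cyc1 K) (CycM K m)} (hm : IsPr mul) {z : Fin m → Cyc1 K}
    (hz : ∀ j, z j ∈ ZW a b) {i : Fin m} (hi : z i ∈ T1 a b) : mul z ∈ TM a b m := by
  obtain ⟨N, hN, hNi⟩ := hi
  refine ⟨N, hN, ?_⟩
  have key := ins_multi_mem (RatEqM a b m) mul
    (fun j => if j = i then {N • z i} else {x | ∃ P : Pt K, OnW a b P ∧ x = Finsupp.single P 1})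
    (fun y hy => by
      have hyi : y i = N • z i := by
        have := hy i
        simpa using this
      have hyj : ∀ j, ∃ P : Pt K, j ≠ i → (OnW a b P ∧ y j = Finsupp.single P 1) := by
        intro j
        by_cases hj : j = i
        · exact ⟨o K, fun h => absurd hj h⟩
        · have := hy j
          simp only [if_neg hj] at this
          obtain ⟨P, h1, h2⟩ := this
          exact ⟨P, fun _ => ⟨h1, h2⟩⟩
      choose Q hQ using hyj
      have hy2 : y = Function.update (fun j => (Finsupp.single (Q j) 1 : Cyc1 K)) i (N • z i) := by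
        funext j
        by_cases hj : j = i
        · subst hj
          rw [Function.update_self]
          exact hyi
        · rw [Function.update_of_ne hj]
          exact (hQ j hj).2
      rw [hy2, ins1_mul hm]
      exact ins1 i Q (fun j hj => (hQ j hj).1) hNi)
    (Function.update z i (N • z i))
    (fun j => by
      by_cases hj : j = i
      · subst hj
        rw [Function.update_self]
        apply AddSubgroup.subset_closure
        simp
      · rw [Function.update_of_ne hj]
        simp only [if_neg hj]
        exact hz j)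
  have h2 : mul (Function.update z i (N • z i)) = N • mul z := by
    have h3 : (N • z i) = ((N : ℤ) • z i) := (natCast_zsmul (z i) N).symm
    have h4 := mul.map_update_smul z i (N : ℤ) (z i)
    rw [Function.update_eq_self] at h4
    rw [h3, h4]
    exact natCast_zsmul (mul z) N
  rw [← h2]
  exact key

theorem ins_gen2 {y : Fin m → Cyc1 K} {i j : Fin m} (hij : i ≠ j) {P P' : Pt K}
    (hy : ∀ l, y l ∈ (if l = i then {aa P} else if l = j then {aa P'} else
      {x : Cyc1 K | ∃ P : Pt K, OnW a b P ∧ x = Finsupp.single P 1})) :
    ∃ Q : Fin m → Pt K, (∀ l, l ≠ i → l ≠ j → OnW a b (Q l)) ∧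
      y = Function.update (Function.update (fun l => (Finsupp.single (Q l) 1 : Cyc1 K)) i (aa P)) j (aa P') ∧
      (fun l => y (Equiv.swap i j l)) =
        Function.update (Function.update (fun l => (Finsupp.single (Q l) 1 : Cyc1 K)) i (aa P')) j (aa P) := by
  have hyi : y i = aa P := by
    have := hy i
    simpa using this
  have hyj : y j = aa P' := by
    have := hy j
    simpa [Ne.symm hij] using this
  have hyl : ∀ l, ∃ P : Pt K, l ≠ i → l ≠ j → (OnW a b P ∧ y l = Finsupp.single P 1) := by
    intro l
    by_cases hl : l = i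
    · exact ⟨o K, fun h => absurd hl h⟩
    · by_cases hl2 : l = j
      · exact ⟨o K, fun _ h => absurd hl2 h⟩
      · have := hy l
        simp only [if_neg hl, if_neg hl2] at this
        obtain ⟨P, h1, h2⟩ := this
        exact ⟨P, fun _ _ => ⟨h1, h2⟩⟩
  choose Q hQ using hyl
  refine ⟨Q, fun l h1 h2 => (hQ l h1 h2).1, ?_, ?_⟩
  · funext l
    by_cases hl2 : l = j
    · subst hl2
      rw [Function.update_self]
      exact hyj
    · rw [Function.update_of_ne hl2]
      by_cases hl : l = i
      · subst hl
        rw [Function.update_self]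
        exact hyi
      · rw [Function.update_of_ne hl]
        exact (hQ l hl hl2).2
  · funext l
    by_cases hl2 : l = j
    · subst hl2
      rw [Function.update_self, Equiv.swap_apply_right]
      exact hyi
    · rw [Function.update_of_ne hl2]
      by_cases hl : l = i
      · subst hl
        rw [Function.update_self, Equiv.swap_apply_left]
        exact hyj
      · rw [Function.update_of_ne hl, Equiv.swap_apply_of_ne_of_ne hl hl2]
        exact (hQ l hl hl2).2

theorem ins_clo2 {z : Fin m → Cyc1 K} (hz : ∀ j, z j ∈ ZW a b) {i j : Fin m} {P P' : Pt K}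
    (hi : z i = aa P) (hj : z j = aa P') (l : Fin m) :
    z l ∈ AddSubgroup.closure (if l = i then {aa P} else if l = j then {aa P'} else
      {x : Cyc1 K | ∃ P : Pt K, OnW a b P ∧ x = Finsupp.single P 1}) := by
  by_cases hl : l = i
  · subst hl
    rw [if_pos rfl]
    apply AddSubgroup.subset_closure
    rw [hi]
    exact Set.mem_singleton _
  · rw [if_neg hl]
    by_cases hl2 : l = j
    · subst hl2
      rw [if_pos rfl]
      apply AddSubgroup.subset_closure
      rw [hj]
      exact Set.mem_singleton _
    · rw [if_neg hl2]
      exact hz l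

theorem kill2 {mul : MultilinearMap ℤ (fun _ : Fin m => Cyc1 K) (CycM K m)} (hm : IsPr mul) {z : Fin m → Cyc1 K}
    (hz : ∀ j, z j ∈ ZW a b) {i j : Fin m} (hij : i ≠ j) {P P' : Pt K} (hi : z i = aa P) (hj : z j = aa P')
    (h : prod P (o K) P' (o K) ∈ T2 a b) : mul z ∈ TM a b m := by
  obtain ⟨N, hN, hNi⟩ := h
  refine ⟨N, hN, ?_⟩
  have key := ins_multi_mem (RatEqM a b m) (N • mul)
    (fun l => if l = i then {aa P} else if l = j then {aa P'} else
      {x : Cyc1 K | ∃ P : Pt K, OnW a b P ∧ x = Finsupp.single P 1})
    (fun y hy => by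
      obtain ⟨Q, hQ, h1, -⟩ := ins_gen2 hij hy
      change N • mul y ∈ _
      rw [h1, ins2_prod hm hij]
      have h3 := ins2 hij Q hQ hNi
      rw [Finsupp.mapDomain_smul] at h3
      exact h3)
    z (ins_clo2 hz hi hj)
  exact key

theorem swap2 {mul : MultilinearMap ℤ (fun _ : Fin m => Cyc1 K) (CycM K m)} (hm : IsPr mul) {z : Fin m → Cyc1 K}
    (hz : ∀ j, z j ∈ ZW a b) {i j : Fin m} (hij : i ≠ j) {P P' : Pt K} (hi : z i = aa P) (hj : z j = aa P')
    (h : prod P (o K) P' (o K) - prod P' (o K) P (o K) ∈ T2 a b) :
    mul z - mul (fun l => z (Equiv.swap i j l)) ∈ TM a b m := by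
  obtain ⟨N, hN, hNi⟩ := h
  refine ⟨N, hN, ?_⟩
  have key := ins_multi_mem (RatEqM a b m) (N • (mul - mul.domDomCongr (Equiv.swap i j)))
    (fun l => if l = i then {aa P} else if l = j then {aa P'} else
      {x : Cyc1 K | ∃ P : Pt K, OnW a b P ∧ x = Finsupp.single P 1})
    (fun y hy => by
      obtain ⟨Q, hQ, h1, h2⟩ := ins_gen2 hij hy
      change N • (mul y - mul (fun l => y (Equiv.swap i j l))) ∈ _
      rw [h2, h1, ins2_prod hm hij, ins2_prod hm hij]
      have h3 := ins2 hij Q hQ hNi
      rw [Finsupp.mapDomain_smul] at h3
      have h4 : Finsupp.mapDomain (fun s : Pt K × Pt K => Function.update (Function.update Q i s.1) j s.2)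
          (prod P (o K) P' (o K) - prod P' (o K) P (o K)) =
          Finsupp.mapDomain (fun s : Pt K × Pt K => Function.update (Function.update Q i s.1) j s.2)
            (prod P (o K) P' (o K)) -
          Finsupp.mapDomain (fun s : Pt K × Pt K => Function.update (Function.update Q i s.1) j s.2)
            (prod P' (o K) P (o K)) :=
        map_sub (Finsupp.mapDomain.addMonoidHom
          (fun s : Pt K × Pt K => Function.update (Function.update Q i s.1) j s.2)) _ _
      rw [h4] at h3
      exact h3)
    z (ins_clo2 hz hi hj)
  exact key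

end H25.V1
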