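import Pool.Agent.H25.V1.Comb


/-! # V1.Main : exterior products of zero-cycles of degree zero supported on a curve are torsion (about 100 lines) -/

namespace H25.V1

open H68.BB H25.KP

variable {K : Type} [Field K] {a b : MvPolynomial (Fin 2) K}

/-- a zero-cycle of degree zero is in the span of the `P - o` -/
private theorem mem_span_aa {X : Set (Pt K)} {z : Cyc1 K} (hz : deg z = 0) (h : ∀ P ∈ z.support, P ∈ X) :
    z ∈ AddSubgroup.closure {w : Cyc1 K | ∃ P ∈ X, w = aa P} := by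
  classical
  have h1 : z = ∑ P ∈ z.support, z P • aa P := by
    have h2 : ∑ P ∈ z.support, z P • aa P =
        (∑ P ∈ z.support, (Finsupp.single P (z P) : Cyc1 K)) - (∑ P ∈ z.support, z P) • Finsupp.single (o K) 1 := by
      rw [Finset.sum_smul, ← Finset.sum_sub_distrib]
      refine Finset.sum_congr rfl fun P _ => ?_
      rw [aa, smul_sub, Finsupp.smul_single, smul_eq_mul, mul_one]
    have h3 : (∑ P ∈ z.support, z P) = 0 := hz
    have h4 : (∑ P ∈ z.support, (Finsupp.single P (z P) : Cyc1 K)) = z := Finsupp.sum_single z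
    rw [h2, h3, h4, zero_smul, sub_zero]
  rw [h1]
  refine AddSubgroup.sum_mem _ fun P hP => AddSubgroup.zsmul_mem _ (AddSubgroup.subset_closure ?_) _
  exact ⟨P, h P hP, rfl⟩

theorem main [IsAlgClosed K] [NZ6 K] (ha : a.IsHomogeneous 8) (hb : b.IsHomogeneous 12) (hD : disc a b ≠ 0)
    {u0 u1 v0 v1 : K} (huv : u0 * v1 ≠ u1 * v0) (hu : ev (disc a b) u0 u1 = 0) (hv : ev (disc a b) v0 v1 = 0)
    {r : ℕ} (s : Fin r → Pt (Om K)) (hs : ∀ j, OnW a b (s j)) :
    ∃ m : ℕ, 0 < m ∧ ∀ z : Fin m → Cyc1 K, (∀ i, deg (z i) = 0) → (∀ i, ∀ P ∈ (z i).support, P ∈ SpecOf s) →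
      ∃ N : ℕ, 0 < N ∧ N • prodM z ∈ RatEqM a b m := by
  classical
  choose g hg using fun j => comb ha hb hD huv hu hv (hs j)
  let G : ℕ := Finset.univ.sup g
  refine ⟨r * G + 1, Nat.succ_pos _, fun z hz hsupp => ?_⟩
  obtain ⟨mul, hmul, hpr⟩ := exists_mul K (r * G + 1)
  have key : mul z ∈ TM a b (r * G + 1) := by
    let q : CycM K (r * G + 1) →ₗ[ℤ] (CycM K (r * G + 1) ⧸ TM a b (r * G + 1)) :=
      (QuotientAddGroup.mk' (TM a b (r * G + 1))).toIntLinearMap
    let M : MultilinearMap ℤ (fun _ : Fin (r * G + 1) => Cyc1 K) (CycM K (r * G + 1) ⧸ TM a b (r * G + 1)) :=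
      q.compMultilinearMap mul
    have hM : ∀ z, M z = ((mul z : CycM K (r * G + 1)) : CycM K (r * G + 1) ⧸ TM a b (r * G + 1)) := fun z => rfl
    have h0 := multi_ind M (fun _ => {w : Cyc1 K | ∃ P ∈ SpecOf s, w = aa P}) ?_ z
      (fun j => mem_span_aa (hz j) (hsupp j))
    · rw [hM, QuotientAddGroup.eq_zero_iff] at h0
      exact h0
    · intro y hy
      choose P hP hyP using hy
      have hy' : y = fun i => aa (P i) := funext hyP
      rw [hM, QuotientAddGroup.eq_zero_iff, hy']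
      choose π j hj using hP
      have hW : ∀ i, OnW a b (P i) := fun i => Sp_onW ha hb (hs (j i)) (hj i)
      obtain ⟨j0, hj0⟩ := Fintype.exists_lt_card_fiber_of_mul_lt_card (f := j) (n := G)
        (by rw [Fintype.card_fin, Fintype.card_fin]; omega)
      have hle : g j0 + 1 ≤ (Finset.univ.filter (fun i => j i = j0)).card :=
        lt_of_le_of_lt (Finset.le_sup (f := g) (Finset.mem_univ j0)) hj0
      obtain ⟨I, hI, hIc⟩ := Finset.exists_subset_card_eq hle
      refine hg j0 _ mul hpr P hW I hIc fun i hi => ⟨π i, ?_⟩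
      have h1 := (Finset.mem_filter.1 (hI hi)).2
      rw [← h1]
      exact hj i
  rw [hmul] at key
  exact key

end H25.V1
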