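import Pool.Agent.H25.V1.One


/-! # V1.Mult : the exterior product is multilinear; induction over the spans of the variables (about 100 lines)

`prodM_apply`: if `f` is not in the `piFinset` then some `z i (f i) = 0` (`Finset.prod_eq_zero`); `Finsupp.finsetSum_apply`, `Finsupp.single_apply`.
`exists_mul`: `MultilinearMap.mk` (or structure) with `toFun := prodM`; additivity from `prodM_apply` by `Finsupp.ext`, `Finset.prod_update_of_mem`,
`Function.update` (the `DecidableEq` instance is a variable of the field `map_update_add'`: `intro` it and use `Subsingleton.elim` or `classical`); scalars are integers.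
`multi_ind`: induction on a Finset `s`: for `z` with `z j ∈ closure (S j)` for `j ∈ s` and `z j ∈ S j` for `j ∉ s`; step:
`AddSubgroup.closure_induction` for the coordinate `j` (`M (update z j x) = 0`).  -/

namespace H25.V1

open H68.BB H25.KP

variable {K : Type} [Field K]

theorem prodM_apply {m : ℕ} (z : Fin m → Cyc1 K) (f : Fin m → Pt K) : prodM z f = ∏ i, z i (f i) := by
  classical
  unfold prodM
  rw [Finsupp.finsetSum_apply]
  simp only [Finsupp.single_apply]
  rw [Finset.sum_ite_eq']
  split_ifs with h
  · rfl
  · rw [Fintype.mem_piFinset, not_forall] at h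
    obtain ⟨i, hi⟩ := h
    rw [Finsupp.notMem_support_iff] at hi
    exact (Finset.prod_eq_zero (Finset.mem_univ i) hi).symm

private theorem upd_prod {m : ℕ} [DecidableEq (Fin m)] (z : Fin m → Cyc1 K) (i : Fin m) (w : Cyc1 K)
    (f : Fin m → Pt K) : ∏ j, (Function.update z i w j) (f j) =
      w (f i) * ∏ j ∈ Finset.univ.erase i, z j (f j) := by
  rw [← Finset.mul_prod_erase Finset.univ (fun j => (Function.update z i w j) (f j))
    (Finset.mem_univ i)]
  rw [Function.update_self]
  congr 1
  refine Finset.prod_congr rfl fun j hj => ?_
  rw [Function.update_of_ne (Finset.ne_of_mem_erase hj)]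

/-- the exterior product as a multilinear map -/
theorem exists_mul (K : Type) [Field K] (m : ℕ) : ∃ mul : MultilinearMap ℤ (fun _ : Fin m => Cyc1 K) (CycM K m),
    (∀ z, mul z = prodM z) ∧ IsPr mul := by
  let mul : MultilinearMap ℤ (fun _ : Fin m => Cyc1 K) (CycM K m) :=
    { toFun := prodM
      map_update_add' := by
        intro _ z i x y
        refine Finsupp.ext fun f => ?_
        rw [Finsupp.add_apply, prodM_apply, prodM_apply, prodM_apply, upd_prod, upd_prod, upd_prod,
          Finsupp.add_apply, add_mul]
      map_update_smul' := by
        intro _ z i c x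
        refine Finsupp.ext fun f => ?_
        rw [Finsupp.smul_apply, prodM_apply, prodM_apply, upd_prod, upd_prod,
          Finsupp.smul_apply, smul_eq_mul, smul_eq_mul, mul_assoc] }
  have hmul : ∀ z, mul z = prodM z := fun z => rfl
  refine ⟨mul, hmul, ?_⟩
  intro P
  rw [hmul]
  classical
  refine Finsupp.ext fun f => ?_
  rw [prodM_apply, Finsupp.single_apply]
  split_ifs with h
  · subst h
    refine Finset.prod_eq_one fun i _ => ?_
    exact Finsupp.single_eq_same
  · have h2 : ∃ i, P i ≠ f i := by
      by_contra h3
      push Not at h3
      exact h (funext h3)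
    obtain ⟨i, hi⟩ := h2
    refine Finset.prod_eq_zero (Finset.mem_univ i) ?_
    rw [Finsupp.single_apply, if_neg hi]

/-- a multilinear map which vanishes on generators vanishes on the subgroups generated by them -/
theorem multi_ind {m : ℕ} {A B : Type} [AddCommGroup A] [AddCommGroup B] (M : MultilinearMap ℤ (fun _ : Fin m => A) B)
    (S : Fin m → Set A) (h : ∀ y : Fin m → A, (∀ j, y j ∈ S j) → M y = 0) (z : Fin m → A)
    (hz : ∀ j, z j ∈ AddSubgroup.closure (S j)) : M z = 0 := by
  have key : ∀ s : Finset (Fin m), ∀ z : Fin m → A, (∀ j ∈ s, z j ∈ AddSubgroup.closure (S j)) →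
      (∀ j, j ∉ s → z j ∈ S j) → M z = 0 := by
    intro s
    induction s using Finset.induction_on with
    | empty =>
      intro z _ h2
      exact h z fun j => h2 j (Finset.notMem_empty j)
    | insert a s ha ih =>
      intro z h1 h2
      have h3 : z a ∈ AddSubgroup.closure (S a) := h1 a (Finset.mem_insert_self a s)
      have h4 : ∀ x ∈ AddSubgroup.closure (S a), M (Function.update z a x) = 0 := by
        intro x hx
        induction hx using AddSubgroup.closure_induction with
        | mem x hx =>
          refine ih _ ?_ ?_
          · intro j hj
            have hja : j ≠ a := fun e => ha (e ▸ hj)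
            rw [Function.update_of_ne hja]
            exact h1 j (Finset.mem_insert_of_mem hj)
          · intro j hj
            by_cases hja : j = a
            · subst hja
              rw [Function.update_self]
              exact hx
            · rw [Function.update_of_ne hja]
              refine h2 j ?_
              rw [Finset.mem_insert, not_or]
              exact ⟨hja, hj⟩
        | zero => exact M.map_update_zero z a
        | add x y _ _ hx hy => rw [M.map_update_add, hx, hy, add_zero]
        | neg x _ hx => rw [M.map_update_neg, hx, neg_zero]
      have h5 := h4 (z a) h3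
      rwa [Function.update_eq_self] at h5
  exact key Finset.univ z (fun j _ => hz j) (fun j hj => absurd (Finset.mem_univ j) hj)

end H25.V1
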