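import Pool.Agent.H25.V1.Def


/-! # V1.One : relations in one variable, torsion, the cycles `P - o` (internal definitions, no sorry) -/

namespace H25.V1

open H68.BB H25.KP

variable {K : Type} [Field K]

/-- zero-cycles of `W` rationally equivalent to zero -/
noncomputable def RatEq1 (a b : MvPolynomial (Fin 2) K) : AddSubgroup (Cyc1 K) :=
  AddSubgroup.closure {z | ∃ (S : Multiset (Pt (Om K))) (π π' : Place K (Om K)) (c c' : Multiset (Pt K)),
    (∀ s ∈ S, OnW a b s) ∧ (∀ σ : Om K ≃ₐ[RatFunc K] Om K, S.map (fun s => s.map σ) = S) ∧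
    Multiset.Rel (Sp π) S c ∧ Multiset.Rel (Sp π') S c' ∧
    z = (c.map (fun p => (Finsupp.single p 1 : Cyc1 K))).sum - (c'.map (fun p => (Finsupp.single p 1 : Cyc1 K))).sum}

/-- the elements with a positive multiple in `H` -/
def tor {A : Type} [AddCommGroup A] (H : AddSubgroup A) : AddSubgroup A where
  carrier := {z | ∃ N : ℕ, 0 < N ∧ N • z ∈ H}
  zero_mem' := ⟨1, one_pos, by rw [smul_zero]; exact H.zero_mem⟩
  add_mem' := by
    rintro x y ⟨N, hN, hx⟩ ⟨M, hM, hy⟩
    refine ⟨N * M, Nat.mul_pos hN hM, ?_⟩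
    rw [smul_add]
    refine H.add_mem ?_ ?_
    · rw [mul_comm, mul_smul]; exact H.nsmul_mem hx M
    · rw [mul_smul]; exact H.nsmul_mem hy N
  neg_mem' := by
    rintro x ⟨N, hN, hx⟩
    refine ⟨N, hN, ?_⟩
    rw [smul_neg]
    exact H.neg_mem hx

theorem mem_tor {A : Type} [AddCommGroup A] {H : AddSubgroup A} {z : A} : z ∈ tor H ↔ ∃ N : ℕ, 0 < N ∧ N • z ∈ H :=
  Iff.rfl

theorem le_tor {A : Type} [AddCommGroup A] (H : AddSubgroup A) : H ≤ tor H :=
  fun x hx => ⟨1, one_pos, by rw [one_smul]; exact hx⟩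

/-- `tor` is saturated -/
theorem tor_sat {A : Type} [AddCommGroup A] {H : AddSubgroup A} {N : ℕ} (hN : 0 < N) {z : A} (h : N • z ∈ tor H) :
    z ∈ tor H := by
  obtain ⟨M, hM, h1⟩ := h
  exact ⟨M * N, Nat.mul_pos hM hN, by rw [mul_smul]; exact h1⟩

/-- torsion classes on `W` -/
noncomputable abbrev T1 (a b : MvPolynomial (Fin 2) K) : AddSubgroup (Cyc1 K) := tor (RatEq1 a b)

/-- torsion classes on `W × W` -/
noncomputable abbrev T2 (a b : MvPolynomial (Fin 2) K) : AddSubgroup (Cyc K) := tor (RatEq a b)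

/-- torsion classes on `W^m` -/
noncomputable abbrev TM (a b : MvPolynomial (Fin 2) K) (m : ℕ) : AddSubgroup (CycM K m) := tor (RatEqM a b m)

/-- the cycle `P - o` -/
noncomputable def aa (P : Pt K) : Cyc1 K := Finsupp.single P 1 - Finsupp.single (o K) 1

/-- zero-cycles supported on `W` -/
noncomputable def ZW (a b : MvPolynomial (Fin 2) K) : AddSubgroup (Cyc1 K) :=
  AddSubgroup.closure {z | ∃ P : Pt K, OnW a b P ∧ z = Finsupp.single P 1}

/-- proportional coordinate vectors -/
def Prp (P Q : Pt K) : Prop := ∃ c : K, c ≠ 0 ∧ Q = P.smul c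

/-- the linear form `q t0 - p t1`, with the zero `(p : q)` -/
def lin {F : Type} [Field F] [Algebra K F] (p q : K) (P : Pt F) : F :=
  algebraMap K F q * P.t0 - algebraMap K F p * P.t1

/-- the exterior product as a multilinear map (constructed in `V1.Mult`) is a variable of the other modules: `IsPr mul` says
that `mul` is the exterior product -/
def IsPr {m : ℕ} (mul : MultilinearMap ℤ (fun _ : Fin m => Cyc1 K) (CycM K m)) : Prop :=
  ∀ P : Fin m → Pt K, mul (fun i => Finsupp.single (P i) 1) = Finsupp.single P 1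

end H25.V1
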