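import Pool.Agent.H25.V1.One


/-! # V1.Tr : transcendence over the algebraically closed constants (about 100 lines)

`trans`: an element of `Om K` algebraic over the algebraically closed field `K` is in the image of `K` (`IsAlgClosed.algebraMap_bijective_of_isIntegral` for the subfield,
or: its minimal polynomial splits over `K`, so it is a root of some `X - C c`).
`alg`: (Mathlib: transcendence degree one, or directly:) `f` is algebraic over `K(t)`: a nonzero `G(X, Y)` with `G(tt, f) = 0`; since `f` is transcendental over `K`, exchanging the variables gives that `tt`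
is algebraic over `K(f)`, and everything is algebraic over `K(tt)`.  `transcendental_tt`: see `tt_transcendental` in `Pool/Agent/H71/K3/PlInf.lean` (private, copy it).
`place_inf`: copy from the same file. -/

namespace H25.V1

open H68.BB H25.KP Polynomial

variable {K : Type} [Field K]

private theorem algMap_X' (k : Type) [Field k] : algebraMap k[X] (Om k) X = tt k := by
  rw [IsScalarTower.algebraMap_apply k[X] (RatFunc k) (Om k), RatFunc.algebraMap_X]
  rfl

theorem transcendental_tt : Transcendental K (tt K) := by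
  rw [← algMap_X']
  rw [transcendental_iff]
  intro p hp
  have h1 : algebraMap K[X] (Om K) p = 0 := by
    have h2 : aeval (algebraMap K[X] (Om K) X) p = algebraMap K[X] (Om K) (aeval X p) := by
      rw [aeval_algebraMap_apply]
    rw [h2, aeval_X_left_apply] at hp
    exact hp
  rw [IsScalarTower.algebraMap_apply K[X] (RatFunc K) (Om K)] at h1
  have h3 := (map_eq_zero_iff _ (algebraMap (RatFunc K) (Om K)).injective).mp h1
  exact (map_eq_zero_iff _ (RatFunc.algebraMap_injective K)).mp h3

theorem trans [IsAlgClosed K] {f : Om K} (hf : ∀ c : K, f ≠ algebraMap K (Om K) c) : Transcendental K f := by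
  intro h
  have hint : IsIntegral K f := h.isIntegral
  have h1 : (minpoly K f).degree = 1 :=
    IsAlgClosed.degree_eq_one_of_irreducible K (minpoly.irreducible hint)
  obtain ⟨c, hc⟩ := minpoly.mem_range_of_degree_eq_one K f h1
  exact hf c hc.symm

private theorem alg_aux {A : Type} [Field A] [Algebra K A] (h : Algebra.trdeg K A = 1) {f : A}
    (hf : Transcendental K f) (β : A) :
    ∃ G : K[X][X], G ≠ 0 ∧ G.eval₂ (aeval f : K[X] →ₐ[K] A).toRingHom β = 0 := by
  have hinj : Function.Injective (aeval f : K[X] →ₐ[K] A) := transcendental_iff_injective.mp hf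
  let _ : Algebra K[X] A := (aeval f : K[X] →ₐ[K] A).toRingHom.toAlgebra
  have : IsScalarTower K K[X] A := IsScalarTower.of_algebraMap_eq fun c => ((aeval f).commutes c).symm
  have : FaithfulSMul K[X] A := (faithfulSMul_iff_algebraMap_injective _ _).mpr hinj
  have h2 := trdeg_add_eq K K[X] (A := A)
  rw [Polynomial.trdeg_of_isDomain, h] at h2
  have h3 : Algebra.trdeg K[X] A = 0 := by
    have h4 : (1 : Cardinal) + Algebra.trdeg K[X] A = 1 + 0 := by rw [h2, add_zero]
    exact Cardinal.eq_of_add_eq_add_left h4 Cardinal.one_lt_aleph0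
  have h4 : Algebra.IsAlgebraic K[X] A := trdeg_eq_zero_iff.mp h3
  exact h4.isAlgebraic β

private theorem trdeg_one : Algebra.trdeg K (Om K) = 1 := by
  have h0 : Algebra.IsAlgebraic K[X] (Om K) := ⟨fun b =>
    (IsFractionRing.isAlgebraic_iff K[X] (RatFunc K) (Om K)).mpr (Algebra.IsAlgebraic.isAlgebraic _)⟩
  have hf : FaithfulSMul K[X] (Om K) := by
    rw [faithfulSMul_iff_algebraMap_injective, IsScalarTower.algebraMap_eq K[X] (RatFunc K) (Om K)]
    exact (algebraMap (RatFunc K) (Om K)).injective.comp (RatFunc.algebraMap_injective K)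
  have h2 := trdeg_add_eq K K[X] (A := Om K)
  rw [Polynomial.trdeg_of_isDomain, trdeg_eq_zero, add_zero] at h2
  exact h2.symm

/-- every element is algebraic over `K(f)` -/
theorem alg [IsAlgClosed K] {f : Om K} (hf : ∀ c : K, f ≠ algebraMap K (Om K) c) (β : Om K) :
    ∃ G : K[X][X], G ≠ 0 ∧ G.eval₂ (aeval f : K[X] →ₐ[K] Om K).toRingHom β = 0 := by
  exact alg_aux trdeg_one (trans hf) β

/-- extension of a homomorphism of fields to an algebraic extension -/
private theorem exists_ext {F Ω M : Type} [Field F] [Field Ω] [Algebra F Ω] [Algebra.IsAlgebraic F Ω]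
    [Field M] [IsAlgClosed M] (g : F →+* M) :
    ∃ e : Ω →+* M, ∀ x, e (algebraMap F Ω x) = g x := by
  let _ : Algebra F M := g.toAlgebra
  let e : Ω →ₐ[F] M := IsAlgClosed.lift
  exact ⟨(e : Ω →+* M), fun x => e.commutes x⟩

theorem place_inf (K : Type) [Field K] [IsAlgClosed K] : ∃ π : Place K (Om K), tt K ∉ π.V := by
  have htr : Transcendental K (tt K)⁻¹ := fun h => transcendental_tt (K := K) (by
    have h1 := h.inv
    rwa [inv_inv] at h1)
  let g0 : K[X] →+* Om K := (aeval (tt K)⁻¹ : K[X] →ₐ[K] Om K)
  have hg0 : Function.Injective g0 := transcendental_iff_injective.mp htr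
  let g : RatFunc K →+* Om K := IsFractionRing.lift (K := RatFunc K) hg0
  have hgX : g RatFunc.X = (tt K)⁻¹ := by
    rw [← RatFunc.algebraMap_X]
    change IsFractionRing.lift hg0 (algebraMap K[X] (RatFunc K) X) = _
    rw [IsFractionRing.lift_algebraMap]
    exact aeval_X _
  have hgC : ∀ c : K, g (algebraMap K (RatFunc K) c) = cst c := by
    intro c
    rw [IsScalarTower.algebraMap_apply K K[X] (RatFunc K)]
    change IsFractionRing.lift hg0 (algebraMap K[X] (RatFunc K) _) = _
    rw [IsFractionRing.lift_algebraMap]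
    exact aeval_C _ _
  obtain ⟨e, he⟩ := exists_ext (Ω := Om K) g
  have heC : ∀ c : K, e (algebraMap K (Om K) c) = algebraMap K (Om K) c := by
    intro c
    rw [IsScalarTower.algebraMap_apply K (RatFunc K) (Om K), he, hgC]
    exact IsScalarTower.algebraMap_apply K (RatFunc K) (Om K) c
  have heX : e (tt K) = (tt K)⁻¹ := by
    have h1 := he RatFunc.X
    rw [hgX] at h1
    exact h1
  obtain ⟨π₀, h, h0⟩ := place_exists K 0
  let r : (π₀.V.comap e) →+* π₀.V := (e.comp (π₀.V.comap e).subtype).codRestrict π₀.V.toSubring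
    (fun x => x.2)
  refine ⟨⟨π₀.V.comap e, π₀.φ.comp r, fun c => ?_⟩, ?_⟩
  · obtain ⟨h1, h2⟩ := π₀.const c
    have h3 : algebraMap K (Om K) c ∈ π₀.V.comap e := by
      rw [ValuationSubring.mem_comap, heC]
      exact h1
    refine ⟨h3, ?_⟩
    change π₀.φ (r ⟨algebraMap K (Om K) c, h3⟩) = c
    have h4 : r ⟨algebraMap K (Om K) c, h3⟩ = ⟨algebraMap K (Om K) c, h1⟩ :=
      Subtype.ext (heC c)
    rw [h4, h2]
  · intro hmem
    change tt K ∈ π₀.V.comap e at hmem
    rw [ValuationSubring.mem_comap, heX] at hmem
    have hne : tt K ≠ 0 := by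
      have h5 := tt_ne K 0
      rwa [cst, map_zero] at h5
    have h6 : (⟨tt K, h⟩ : π₀.V) * ⟨(tt K)⁻¹, hmem⟩ = 1 :=
      Subtype.ext (mul_inv_cancel₀ hne)
    have h7 := congrArg π₀.φ h6
    rw [map_mul, h0, zero_mul, map_one] at h7
    exact zero_ne_one h7

end H25.V1
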